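import Pool.Agent.VG86.Final

/-!
# From a spanning-like subgraph to the whole graph
-/

set_option autoImplicit false

namespace Pool.Agent.VG86

open Finset
open scoped Classical

variable {V : Type} [Fintype V] {G : SimpleGraph V}

/-- if sparse sets do not separate the subgraph `H`, and every vertex outside of `H` has at least
`k + 3` neighbours in `H`, then every shortest path of `G` can be removed -/
theorem core_of_sparse (k : ℕ) (W : Set V) (H : SimpleGraph W)
    (hHG : ∀ x y : W, H.Adj x y → G.Adj x y) (hH : H.Connected) (w0 : W)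
    (hw0 : k + 4 ≤ (H.neighborSet w0).ncard)
    (hsc : ∀ F : Set W, (∀ (a : W) (ρ : ℕ) (U : Finset W),
      (∀ y ∈ U, y ∈ F ∧ H.dist a y ≤ ρ) → U.card ≤ 2 * ρ + k) →
        ∀ x y, x ∉ F → y ∉ F → Conn H F x y)
    (hdom : ∀ z : V, z ∉ W → k + 3 ≤ ({y : V | y ∈ W ∧ G.Adj z y} : Set V).ncard) :
    G.Connected ∧ ∀ {v w : V} (p : G.Walk v w), p.length = G.dist v w →
    p.IsPath ∧
      (∀ x ∈ p.support, ∀ y ∈ p.support, G.Adj x y → s(x, y) ∈ p.edges) ∧
      k < Nat.card ({x : V | x ∉ p.support} : Set V) ∧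
      ∀ S0 : Set ({x : V | x ∉ p.support} : Set V), S0.ncard < k →
        ((G.induce ({x : V | x ∉ p.support} : Set V)).induce S0ᶜ).Connected := by
  have hmap : ∀ {x y : W} (q : H.Walk x y), ∃ q' : G.Walk (x : V) (y : V),
      q'.length = q.length := by
    intro x y q
    exact ⟨q.map ⟨Subtype.val, fun {a b} h => hHG a b h⟩, by rw [SimpleGraph.Walk.length_map]⟩
  have hG : G.Connected := by
    have h1 : ∀ z : V, G.Reachable z w0 := by
      intro z
      by_cases hz : z ∈ W
      · obtain ⟨q⟩ := hH.preconnected ⟨z, hz⟩ w0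
        obtain ⟨q', _⟩ := hmap q
        exact ⟨q'⟩
      · have h2 := hdom z hz
        obtain ⟨y, hy1, hy2⟩ : ({y : V | y ∈ W ∧ G.Adj z y} : Set V).Nonempty := by
          rw [← Set.ncard_pos (Set.toFinite _)]
          omega
        obtain ⟨q⟩ := hH.preconnected ⟨y, hy1⟩ w0
        obtain ⟨q', _⟩ := hmap q
        exact hy2.reachable.trans ⟨q'⟩
    refine SimpleGraph.Connected.mk ?_ (nonempty := ⟨(w0 : V)⟩)
    intro x y
    exact (h1 x).trans (h1 y).symm
  have hdist : ∀ x y : W, G.dist (x : V) (y : V) ≤ H.dist x y := by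
    intro x y
    obtain ⟨q, hq⟩ := hH.exists_walk_length_eq_dist x y
    obtain ⟨q', hq'⟩ := hmap q
    have := SimpleGraph.dist_le q'
    omega
  refine ⟨hG, ?_⟩
  intro v w p hp
  have hmain : ∀ S0 : Set ({x : V | x ∉ p.support} : Set V), S0.ncard < k →
      (∃ x, x ∉ Del {x : V | x ∉ p.support} S0) ∧
      (∀ x y, x ∉ Del {x : V | x ∉ p.support} S0 → y ∉ Del {x : V | x ∉ p.support} S0 →
        Conn G (Del {x : V | x ∉ p.support} S0) x y) := by
    intro S0 hS0
    obtain ⟨F, hFdef⟩ : ∃ F : Set V, F = Del {x : V | x ∉ p.support} S0 := ⟨_, rfl⟩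
    rw [← hFdef]
    have hsp : ∀ (a : V) (ρ : ℕ) (U : Finset V), (∀ y ∈ U, y ∈ F ∧ G.dist a y ≤ ρ) →
        U.card ≤ 2 * ρ + k := by
      intro a ρ U hU
      refine del_sparse hG p hp S0 hS0 a ρ U ?_
      rw [← hFdef]
      exact hU
    have hconn := hsc {x : W | (x : V) ∈ F} (by
      intro a ρ U hU
      have h1 : (U.map ⟨Subtype.val, Subtype.val_injective⟩).card ≤ 2 * ρ + k := by
        refine hsp a ρ _ ?_
        intro y hy
        rw [mem_map] at hy
        obtain ⟨y', hy', rfl⟩ := hy
        obtain ⟨h2, h3⟩ := hU y' hy'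
        exact ⟨h2, (hdist a y').trans h3⟩
      rw [card_map] at h1
      exact h1)
    have hlift : ∀ x y : W, Conn H {x : W | (x : V) ∈ F} x y → Conn G F (x : V) (y : V) := by
      intro x y h
      induction h with
      | refl => exact Conn.refl _
      | tail _ hbc ih => exact ih.tail ⟨hHG _ _ hbc.1, hbc.2.1, hbc.2.2⟩
    have hnear : ∀ z : V, z ∉ F → ∃ a : W, (a : V) ∉ F ∧ Conn G F z a := by
      intro z hz
      by_cases hzW : z ∈ W
      · exact ⟨⟨z, hzW⟩, hz, Conn.refl z⟩
      · have hex : ∃ y, y ∈ W ∧ G.Adj z y ∧ y ∉ F := by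
          by_contra hno
          push Not at hno
          have hfin : ({y : V | y ∈ W ∧ G.Adj z y} : Set V).Finite := Set.toFinite _
          have h1 := hdom z hzW
          rw [Set.ncard_eq_toFinset_card _ hfin] at h1
          have h2 := hsp z 1 hfin.toFinset (by
            intro y hy
            rw [Set.Finite.mem_toFinset] at hy
            exact ⟨hno y hy.1 hy.2, by rw [SimpleGraph.dist_eq_one_iff_adj.mpr hy.2]⟩)
          omega
        obtain ⟨y, hy1, hy2, hy3⟩ := hex
        exact ⟨⟨y, hy1⟩, hy3, (Conn.refl z).tail ⟨hy2, hz, hy3⟩⟩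
    refine ⟨?_, ?_⟩
    · by_contra hno
      push Not at hno
      have hfin : (H.neighborSet w0).Finite := Set.toFinite _
      have h1 := hw0
      rw [Set.ncard_eq_toFinset_card _ hfin] at h1
      have h2 := hsp w0 1 (hfin.toFinset.map ⟨Subtype.val, Subtype.val_injective⟩) (by
        intro y hy
        rw [mem_map] at hy
        obtain ⟨y', hy', rfl⟩ := hy
        rw [Set.Finite.mem_toFinset] at hy'
        refine ⟨hno _, (hdist w0 y').trans ?_⟩
        rw [SimpleGraph.dist_eq_one_iff_adj.mpr hy'])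
      rw [card_map] at h2
      omega
    · intro x y hx hy
      obtain ⟨a, ha, hxa⟩ := hnear x hx
      obtain ⟨b, hb, hyb⟩ := hnear y hy
      exact (hxa.trans (hlift a b (hconn a b ha hb))).trans hyb.symm
  refine ⟨p.isPath_of_length_eq_dist hp, geodesic_induced hG p hp, ?_, ?_⟩
  · -- more than `k` vertices
    have hfin : (H.neighborSet w0).Finite := Set.toFinite _
    have h1 := hw0
    rw [Set.ncard_eq_toFinset_card _ hfin] at h1
    obtain ⟨N, hN⟩ : ∃ N : Finset V, N = hfin.toFinset.map ⟨Subtype.val, Subtype.val_injective⟩ :=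
      ⟨_, rfl⟩
    have hNc : N.card = hfin.toFinset.card := by rw [hN, card_map]
    have h2 : (N.filter (fun y => y ∈ p.support)).card ≤ 2 * 1 + 1 := by
      refine card_near_geodesic hG p hp w0 1 _ ?_
      intro y hy
      rw [mem_filter, hN, mem_map] at hy
      obtain ⟨⟨y', hy', rfl⟩, hy2⟩ := hy
      rw [Set.Finite.mem_toFinset] at hy'
      refine ⟨hy2, (hdist w0 y').trans ?_⟩
      rw [SimpleGraph.dist_eq_one_iff_adj.mpr hy']
    have h3 := card_filter_add_card_filter_not (s := N) (fun y => y ∈ p.support)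
    have h4 : ((N.filter (fun y => ¬ y ∈ p.support) : Finset V) : Set V).ncard ≤
        ({x : V | x ∉ p.support} : Set V).ncard := by
      refine Set.ncard_le_ncard ?_ (Set.toFinite _)
      intro y hy
      rw [mem_coe, mem_filter] at hy
      exact hy.2
    rw [Set.ncard_coe_finset] at h4
    rw [Nat.card_coe_set_eq]
    omega
  · intro S0 hS0
    obtain ⟨h1, h2⟩ := hmain S0 hS0
    exact connected_of_conn G _ S0 h1 h2

end Pool.Agent.VG86
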