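import Pool.Agent.VG86.Growth

/-!
# Removal of geodesics from vertex-transitive graphs
-/

set_option autoImplicit false

namespace Pool.Agent.VG86

open Finset
open scoped Classical

section conn

variable {V : Type}

/-- one step of the graph outside of `F` -/
def Rel (G : SimpleGraph V) (F : Set V) (x y : V) : Prop := G.Adj x y ∧ x ∉ F ∧ y ∉ F

/-- joined outside of `F` -/
def Conn (G : SimpleGraph V) (F : Set V) : V → V → Prop := Relation.ReflTransGen (Rel G F)

theorem Rel.symm {G : SimpleGraph V} {F : Set V} {x y : V} (h : Rel G F x y) : Rel G F y x :=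
  ⟨h.1.symm, h.2.2, h.2.1⟩

theorem Conn.symm {G : SimpleGraph V} {F : Set V} {x y : V} (h : Conn G F x y) :
    Conn G F y x := by
  induction h with
  | refl => exact Relation.ReflTransGen.refl
  | tail _ hbc ih => exact Relation.ReflTransGen.head hbc.symm ih

theorem Conn.refl {G : SimpleGraph V} {F : Set V} (x : V) : Conn G F x x :=
  Relation.ReflTransGen.refl

theorem Conn.trans {G : SimpleGraph V} {F : Set V} {x y z : V} (h : Conn G F x y)
    (h' : Conn G F y z) : Conn G F x z := Relation.ReflTransGen.trans h h'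

/-- local connections outside of `F` give all connections -/
theorem conn_of_local {G : SimpleGraph V} (hG : G.Connected) {F : Set V}
    (hout : ∀ z : V, ∃ s, G.Adj z s ∧ s ∉ F)
    (hloc : ∀ a b, a ∉ F → b ∉ F → G.dist a b ≤ 3 → Conn G F a b) {x y : V} (hx : x ∉ F)
    (hy : y ∉ F) : Conn G F x y := by
  have hwalk : ∀ {x y : V} (_p : G.Walk x y), ∀ x' y', x' ∉ F → y' ∉ F →
      G.dist x' x ≤ 1 → G.dist y y' ≤ 1 → Conn G F x' y' := by
    intro x y p
    induction p with
    | @nil x =>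
      intro x' y' hx' hy' h1 h2
      have h3 := hG.dist_triangle (u := x') (v := x) (w := y')
      exact hloc x' y' hx' hy' (by omega)
    | @cons x z y hxz q ih =>
      intro x' y' hx' hy' h1 h2
      obtain ⟨s, hs, hzs⟩ := hout z
      have h3 : G.dist s z ≤ 1 := by
        rw [SimpleGraph.dist_eq_one_iff_adj.mpr hs.symm]
      have h4 : G.dist x z = 1 := SimpleGraph.dist_eq_one_iff_adj.mpr hxz
      have h5 : G.dist z s = 1 := SimpleGraph.dist_eq_one_iff_adj.mpr hs
      have h6 := hG.dist_triangle (u := x') (v := x) (w := z)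
      have h7 := hG.dist_triangle (u := x') (v := z) (w := s)
      exact (hloc x' s hx' hzs (by omega)).trans (ih s y' hzs hy' h3 h2)
  obtain ⟨p⟩ := hG.preconnected x y
  exact hwalk p x y hx hy (by simp) (by simp)

end conn

section geo

variable {V : Type} {G : SimpleGraph V}

theorem dist_getVert (hG : G.Connected) {v w : V} (p : G.Walk v w) (hp : p.length = G.dist v w)
    {n : ℕ} (hn : n ≤ p.length) : G.dist v (p.getVert n) = n := by
  have h1 : G.dist v (p.getVert n) ≤ n := by
    have h := SimpleGraph.dist_le (p.take n)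
    rw [SimpleGraph.Walk.take_length] at h
    omega
  have h2 : G.dist (p.getVert n) w ≤ p.length - n := by
    have h := SimpleGraph.dist_le (p.drop n)
    rw [SimpleGraph.Walk.drop_length] at h
    exact h
  have h3 := hG.dist_triangle (u := v) (v := p.getVert n) (w := w)
  omega

theorem card_near_geodesic (hG : G.Connected) {v w : V} (p : G.Walk v w)
    (hp : p.length = G.dist v w) (a : V) (ρ : ℕ) (T : Finset V)
    (hT : ∀ y ∈ T, y ∈ p.support ∧ G.dist a y ≤ ρ) : T.card ≤ 2 * ρ + 1 := by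
  rcases T.eq_empty_or_nonempty with h0 | h0
  · rw [h0]
    simp
  obtain ⟨y0, hy0, hmin⟩ := exists_min_image T (fun y => G.dist v y) h0
  have h1 : T.card ≤ (Icc (G.dist v y0) (G.dist v y0 + 2 * ρ)).card := by
    refine card_le_card_of_injOn (fun y => G.dist v y) ?_ ?_
    · intro y hy
      have h2 := hmin y hy
      have h3 := hG.dist_triangle (u := v) (v := y0) (w := y)
      have h4 := hG.dist_triangle (u := y0) (v := a) (w := y)
      have h5 := (hT y hy).2
      have h6 := (hT y0 hy0).2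
      rw [SimpleGraph.dist_comm] at h6
      rw [mem_coe, mem_Icc]
      refine ⟨h2, ?_⟩
      simp only
      omega
    · intro y hy y' hy' heq
      simp only at heq
      obtain ⟨i, hi, hil⟩ := SimpleGraph.Walk.mem_support_iff_exists_getVert.mp (hT y hy).1
      obtain ⟨j, hj, hjl⟩ := SimpleGraph.Walk.mem_support_iff_exists_getVert.mp (hT y' hy').1
      rw [← hi, ← hj, dist_getVert hG p hp hil, dist_getVert hG p hp hjl] at heq
      rw [← hi, ← hj, heq]
  rw [Nat.card_Icc] at h1
  omega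

theorem geodesic_induced (hG : G.Connected) {v w : V} (p : G.Walk v w)
    (hp : p.length = G.dist v w) :
    ∀ x ∈ p.support, ∀ y ∈ p.support, G.Adj x y → s(x, y) ∈ p.edges := by
  have key : ∀ i j, i < j → i ≤ p.length → j ≤ p.length →
      G.Adj (p.getVert i) (p.getVert j) → j = i + 1 := by
    intro i j hij hi hj hadj
    have h1 := hG.dist_triangle (u := v) (v := p.getVert i) (w := p.getVert j)
    rw [dist_getVert hG p hp hi, dist_getVert hG p hp hj, SimpleGraph.dist_eq_one_iff_adj.mpr hadj]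
      at h1
    omega
  intro x hx y hy hxy
  obtain ⟨i, rfl, hi⟩ := SimpleGraph.Walk.mem_support_iff_exists_getVert.1 hx
  obtain ⟨j, rfl, hj⟩ := SimpleGraph.Walk.mem_support_iff_exists_getVert.1 hy
  rcases lt_trichotomy i j with h | h | h
  · have := key i j h hi hj hxy
    rw [SimpleGraph.Walk.mk_mem_edges_iff_exists]
    exact ⟨i, by omega, by rw [this]⟩
  · subst h
    exact absurd hxy (G.loopless.irrefl _)
  · have := key j i h hj hi hxy.symm
    rw [Sym2.eq_swap, SimpleGraph.Walk.mk_mem_edges_iff_exists]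
    exact ⟨j, by omega, by rw [this]⟩

end geo

/-- the vertices deleted from the graph -/
def Del {V : Type} (B : Set V) (S0 : Set B) : Set V := {x | x ∉ B ∨ ∃ h : x ∈ B, (⟨x, h⟩ : B) ∈ S0}

theorem notMem_del {V : Type} {B : Set V} {S0 : Set B} {x : V} :
    x ∉ Del B S0 ↔ ∃ h : x ∈ B, (⟨x, h⟩ : B) ∈ S0ᶜ := by
  unfold Del
  simp only [Set.mem_ofPred_eq, Set.mem_compl_iff]
  push Not
  constructor
  · rintro ⟨h1, h2⟩
    exact ⟨h1, h2 h1⟩
  · rintro ⟨h1, h2⟩
    exact ⟨h1, fun _ => h2⟩

theorem connected_of_conn {V : Type} (G : SimpleGraph V) (B : Set V) (S0 : Set B)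
    (hne : ∃ x, x ∉ Del B S0)
    (hconn : ∀ x y, x ∉ Del B S0 → y ∉ Del B S0 → Conn G (Del B S0) x y) :
    ((G.induce B).induce S0ᶜ).Connected := by
  have key : ∀ x y, Conn G (Del B S0) x y →
      ∀ (hx : x ∈ B) (hx' : (⟨x, hx⟩ : B) ∈ S0ᶜ) (hy : y ∈ B) (hy' : (⟨y, hy⟩ : B) ∈ S0ᶜ),
        ((G.induce B).induce S0ᶜ).Reachable ⟨⟨x, hx⟩, hx'⟩ ⟨⟨y, hy⟩, hy'⟩ := by
    intro x y h
    induction h with
    | refl =>
      intro hx hx' hy hy'
      exact SimpleGraph.Reachable.refl _
    | @tail y z _ hyz ih =>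
      intro hx hx' hz hz'
      obtain ⟨hy, hy'⟩ := notMem_del.mp hyz.2.1
      refine (ih hx hx' hy hy').trans ?_
      have hadj : ((G.induce B).induce S0ᶜ).Adj ⟨⟨y, hy⟩, hy'⟩ ⟨⟨z, hz⟩, hz'⟩ := hyz.1
      exact hadj.reachable
  obtain ⟨x0, hx0⟩ := hne
  obtain ⟨hx1, hx2⟩ := notMem_del.mp hx0
  have : Nonempty (S0ᶜ : Set B) := ⟨⟨⟨x0, hx1⟩, hx2⟩⟩
  refine SimpleGraph.Connected.mk ?_
  rintro ⟨⟨x, hx⟩, hx'⟩ ⟨⟨y, hy⟩, hy'⟩
  exact key x y (hconn x y (notMem_del.mpr ⟨hx, hx'⟩) (notMem_del.mpr ⟨hy, hy'⟩)) hx hx' hy hy'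

/-- the deleted set is sparse -/
theorem del_sparse {V : Type} [Fintype V] {G : SimpleGraph V} (hG : G.Connected) {v w : V}
    (p : G.Walk v w) (hp : p.length = G.dist v w) {k : ℕ}
    (S0 : Set ({x : V | x ∉ p.support} : Set V)) (hS0 : S0.ncard < k) (a : V) (ρ : ℕ)
    (U : Finset V)
    (hU : ∀ y ∈ U, y ∈ Del {x : V | x ∉ p.support} S0 ∧ G.dist a y ≤ ρ) : U.card ≤ 2 * ρ + k := by
  have h1 : (U.filter (fun y => y ∈ p.support)).card ≤ 2 * ρ + 1 := by
    refine card_near_geodesic hG p hp a ρ _ ?_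
    intro y hy
    rw [mem_filter] at hy
    exact ⟨hy.2, (hU y hy.1).2⟩
  have h2 : (U.filter (fun y => ¬ y ∈ p.support)).card ≤ S0.ncard := by
    have h3 : U.filter (fun y => ¬ y ∈ p.support) ⊆
        S0.toFinite.toFinset.map ⟨Subtype.val, Subtype.val_injective⟩ := by
      intro y hy
      rw [mem_filter] at hy
      rcases (hU y hy.1).1 with h4 | ⟨h4, h5⟩
      · exact absurd hy.2 h4
      · rw [mem_map]
        exact ⟨⟨y, h4⟩, (Set.Finite.mem_toFinset _).mpr h5, rfl⟩
    have h4 := card_le_card h3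
    rw [card_map, ← Set.ncard_eq_toFinset_card S0] at h4
    exact h4
  have h3 := card_filter_add_card_filter_not (s := U) (fun y => y ∈ p.support)
  omega

section aut

variable {V : Type} [Fintype V] {G : SimpleGraph V}

omit [Fintype V] in
theorem iso_dist (hG : G.Connected) (φ : G ≃g G) (x y : V) : G.dist (φ x) (φ y) = G.dist x y := by
  have h1 : ∀ (φ : G ≃g G) (x y : V), G.dist (φ x) (φ y) ≤ G.dist x y := by
    intro φ x y
    obtain ⟨p, hp⟩ := hG.exists_walk_length_eq_dist x y
    have h2 := SimpleGraph.dist_le (p.map φ.toHom)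
    rw [SimpleGraph.Walk.length_map, hp] at h2
    exact h2
  refine le_antisymm (h1 φ x y) ?_
  have h2 := h1 φ.symm (φ x) (φ y)
  simpa using h2

theorem finite_aut : Finite (G ≃g G) :=
  Finite.of_injective (fun φ : G ≃g G => (φ : V → V)) DFunLike.coe_injective

theorem homog [Fintype (G ≃g G)] (hG : G.Connected) (htr : ∀ x y : V, ∃ φ : G ≃g G, φ x = y)
    (o : V) : Homog G o (fun (φ : G ≃g G) (x : V) => φ x)
      (univ.filter (fun φ : G ≃g G => φ o = o)).card := by
  refine ⟨hG, ?_, ?_, ?_, ?_, ?_, ?_⟩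
  · intro φ x y h
    exact φ.map_adj_iff.mpr h
  · intro φ
    exact φ.injective
  · intro z z'
    obtain ⟨α, hα⟩ := htr o z
    obtain ⟨β, hβ⟩ := htr o z'
    refine card_nbij' (fun ψ => (α.trans ψ).trans β.symm) (fun φ => (α.symm.trans φ).trans β)
      ?_ ?_ ?_ ?_
    · intro ψ hψ
      rw [mem_coe, mem_filter] at hψ ⊢
      refine ⟨mem_univ _, ?_⟩
      simp only [RelIso.trans_apply]
      rw [hα, hψ.2, ← hβ, RelIso.symm_apply_apply]
    · intro φ hφ
      rw [mem_coe, mem_filter] at hφ ⊢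
      refine ⟨mem_univ _, ?_⟩
      simp only [RelIso.trans_apply]
      rw [← hα, RelIso.symm_apply_apply, hφ.2, hβ]
    · intro ψ _
      ext x
      simp
    · intro φ _
      ext x
      simp
  · refine card_pos.mpr ⟨RelIso.refl _, ?_⟩
    rw [mem_filter]
    exact ⟨mem_univ _, rfl⟩
  · intro φ x y
    exact iso_dist hG φ x y
  · intro x r
    obtain ⟨α, hα⟩ := htr o x
    symm
    refine card_bij (fun y _ => α y) ?_ ?_ ?_
    · intro y hy
      rw [mem_ball] at hy ⊢
      rw [← hα, iso_dist hG]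
      exact hy
    · intro y _ y' _ heq
      exact α.injective heq
    · intro y hy
      refine ⟨α.symm y, ?_, by simp⟩
      rw [mem_ball] at hy ⊢
      rw [← iso_dist hG α, hα, RelIso.apply_symm_apply]
      exact hy

theorem ball_one (x : V) : (G.neighborSet x).ncard ≤ (ball G x 1).card := by
  rw [← Set.ncard_coe_finset]
  refine Set.ncard_le_ncard ?_ (Set.toFinite _)
  intro y hy
  rw [mem_coe, mem_ball, SimpleGraph.dist_eq_one_iff_adj.mpr hy]

theorem main (k : ℕ) (hG : G.Connected) (htr : ∀ x y : V, ∃ φ : G ≃g G, φ x = y)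
    (hdeg : ∀ x, 112000000 * (k + 40) ≤ (G.neighborSet x).ncard)
    {v w : V} (p : G.Walk v w) (hp : p.length = G.dist v w) :
    p.IsPath ∧
      (∀ x ∈ p.support, ∀ y ∈ p.support, G.Adj x y → s(x, y) ∈ p.edges) ∧
      k < Nat.card ({x : V | x ∉ p.support} : Set V) ∧
      ∀ S0 : Set ({x : V | x ∉ p.support} : Set V), S0.ncard < k →
        ((G.induce ({x : V | x ∉ p.support} : Set V)).induce S0ᶜ).Connected := by
  have := finite_aut (G := G)
  have := Fintype.ofFinite (G ≃g G)
  have H := homog hG htr v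
  refine ⟨p.isPath_of_length_eq_dist hp, geodesic_induced hG p hp, ?_, ?_⟩
  · -- more than `k` vertices
    have hfin : (G.neighborSet v).Finite := Set.toFinite _
    have h1 := hdeg v
    rw [Set.ncard_eq_toFinset_card _ hfin] at h1
    have h2 : (hfin.toFinset.filter (fun y => y ∈ p.support)).card ≤ 2 * 1 + 1 := by
      refine card_near_geodesic hG p hp v 1 _ ?_
      intro y hy
      rw [mem_filter, Set.Finite.mem_toFinset] at hy
      refine ⟨hy.2, ?_⟩
      rw [SimpleGraph.dist_eq_one_iff_adj.mpr hy.1]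
    have h3 := card_filter_add_card_filter_not (s := hfin.toFinset) (fun y => y ∈ p.support)
    have h4 : ((hfin.toFinset.filter (fun y => ¬ y ∈ p.support) : Finset V) : Set V).ncard ≤
        ({x : V | x ∉ p.support} : Set V).ncard := by
      refine Set.ncard_le_ncard ?_ (Set.toFinite _)
      intro y hy
      rw [mem_coe, mem_filter] at hy
      exact hy.2
    rw [Set.ncard_coe_finset] at h4
    rw [Nat.card_coe_set_eq]
    omega
  · intro S0 hS0
    obtain ⟨F, hF⟩ : ∃ F : Finset V, ∀ x, x ∈ F ↔ x ∈ Del {x : V | x ∉ p.support} S0 := by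
      refine ⟨(Set.toFinite (Del {x : V | x ∉ p.support} S0)).toFinset, fun x => ?_⟩
      rw [Set.Finite.mem_toFinset]
    have hsp : ∀ x ρ, 1 ≤ ρ → (F ∩ ball G x ρ).card ≤ 2 * ρ + k := by
      intro x ρ _
      refine del_sparse hG p hp S0 hS0 x ρ _ ?_
      intro y hy
      rw [mem_inter, hF, mem_ball] at hy
      exact hy
    have hout : ∀ z : V, ∃ s, G.Adj z s ∧ s ∉ Del {x : V | x ∉ p.support} S0 := by
      intro z
      by_contra hno
      push Not at hno
      have hfin : (G.neighborSet z).Finite := Set.toFinite _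
      have h1 := hdeg z
      rw [Set.ncard_eq_toFinset_card _ hfin] at h1
      have h2 := del_sparse hG p hp S0 hS0 z 1 hfin.toFinset (by
        intro y hy
        rw [Set.Finite.mem_toFinset] at hy
        exact ⟨hno y hy, by rw [SimpleGraph.dist_eq_one_iff_adj.mpr hy]⟩)
      omega
    refine connected_of_conn G _ S0 ?_ ?_
    · obtain ⟨s, _, hs⟩ := hout v
      exact ⟨s, hs⟩
    · intro x y hx hy
      refine conn_of_local hG hout ?_ hx hy
      intro a b ha hb hab
      by_contra hnc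
      obtain ⟨A, hA⟩ : ∃ A : Finset V, ∀ x, x ∈ A ↔
          x ∉ Del {x : V | x ∉ p.support} S0 ∧ Conn G (Del {x : V | x ∉ p.support} S0) a x := by
        refine ⟨(Set.toFinite {x | x ∉ Del {x : V | x ∉ p.support} S0 ∧
          Conn G (Del {x : V | x ∉ p.support} S0) a x}).toFinset, fun x => ?_⟩
        rw [Set.Finite.mem_toFinset]
        rfl
      obtain ⟨B, hB⟩ : ∃ B : Finset V, ∀ x, x ∈ B ↔
          x ∉ Del {x : V | x ∉ p.support} S0 ∧ ¬ Conn G (Del {x : V | x ∉ p.support} S0) a x := by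
        refine ⟨(Set.toFinite {x | x ∉ Del {x : V | x ∉ p.support} S0 ∧
          ¬ Conn G (Del {x : V | x ∉ p.support} S0) a x}).toFinset, fun x => ?_⟩
        rw [Set.Finite.mem_toFinset]
        rfl
      refine H.no_cut F A B k ?_ ?_ ?_ hsp ((hdeg v).trans (ball_one v))
        ((hA a).mpr ⟨ha, Conn.refl a⟩) ((hB b).mpr ⟨hb, hnc⟩) hab
      · intro x hx y hxy hy
        rw [hA] at hx hy
        rw [hF]
        by_contra hyF
        exact hy ⟨hyF, hx.2.tail ⟨hxy, hx.1, hyF⟩⟩
      · intro x hx y hxy hy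
        rw [hB] at hx hy
        rw [hF]
        by_contra hyF
        refine hy ⟨hyF, fun hc => hx.2 (hc.tail ⟨hxy.symm, hyF, hx.1⟩)⟩
      · intro x hx hx'
        rw [hA] at hx
        rw [hB] at hx'
        exact hx'.2 hx.2

end aut

end Pool.Agent.VG86
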