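import Pool.Agent.VG86.Iso

/-!
# Growth inside of a component, and the contradiction
-/

set_option autoImplicit false

namespace Pool.Agent.VG86

open Finset
open scoped Classical

variable {V Ψ : Type} [Fintype V] [Fintype Ψ]
variable {G : SimpleGraph V} {o : V} {act : Ψ → V → V} {h : ℕ}

theorem ball_mono (G : SimpleGraph V) (x : V) {r r' : ℕ} (hr : r ≤ r') :
    ball G x r ⊆ ball G x r' := by
  intro y hy
  rw [mem_ball] at hy ⊢
  omega

theorem step_arith {K1 k ρ t a a' : ℕ} (hK : 2 ≤ K1) (hρ : 40 ≤ ρ) (ht : 10 * t ≤ ρ + 10)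
    (h1 : K1 * (ρ * (ρ + k)) ≤ a) (h2 : a ≤ 2 * t * ((a' - a) + (2 * (ρ + 1) + k)))
    (haa : a ≤ a') : K1 * ((ρ + 1) * (ρ + 1 + k)) ≤ a' := by
  by_contra hcon
  push Not at hcon
  obtain ⟨c, rfl⟩ : ∃ c, a' = a + c := ⟨a' - a, by omega⟩
  have h3 : a + c - a = c := by omega
  rw [h3] at h2
  -- c is small
  have h4 : c < K1 * (2 * ρ + 1 + k) := by
    have h5 : K1 * ((ρ + 1) * (ρ + 1 + k)) = K1 * (ρ * (ρ + k)) + K1 * (2 * ρ + 1 + k) := by ring
    omega
  have h5 : 5 * a ≤ (ρ + 10) * (c + (2 * (ρ + 1) + k)) := by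
    have h6 : 10 * a ≤ 2 * (10 * t) * (c + (2 * (ρ + 1) + k)) := by
      calc 10 * a ≤ 10 * (2 * t * (c + (2 * (ρ + 1) + k))) := Nat.mul_le_mul_left _ h2
        _ = 2 * (10 * t) * (c + (2 * (ρ + 1) + k)) := by ring
    have h7 : 2 * (10 * t) * (c + (2 * (ρ + 1) + k)) ≤
        2 * (ρ + 10) * (c + (2 * (ρ + 1) + k)) :=
      Nat.mul_le_mul_right _ (Nat.mul_le_mul_left _ ht)
    have h8 : 2 * (ρ + 10) * (c + (2 * (ρ + 1) + k)) =
        2 * ((ρ + 10) * (c + (2 * (ρ + 1) + k))) := by ring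
    omega
  have h6 : 4 * ((ρ + 10) * (c + (2 * (ρ + 1) + k))) ≤
      5 * (ρ * (c + (2 * (ρ + 1) + k))) := by
    have h7 : 4 * (ρ + 10) ≤ 5 * ρ := by omega
    calc 4 * ((ρ + 10) * (c + (2 * (ρ + 1) + k)))
        = (4 * (ρ + 10)) * (c + (2 * (ρ + 1) + k)) := by ring
      _ ≤ (5 * ρ) * (c + (2 * (ρ + 1) + k)) := Nat.mul_le_mul_right _ h7
      _ = 5 * (ρ * (c + (2 * (ρ + 1) + k))) := by ring
  have h7 : 20 * (K1 * (ρ * (ρ + k))) ≤ 5 * (ρ * (c + (2 * (ρ + 1) + k))) := by omega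
  have h8 : ρ * (4 * (K1 * (ρ + k))) ≤ ρ * (c + (2 * (ρ + 1) + k)) := by
    have h9 : 20 * (K1 * (ρ * (ρ + k))) = 5 * (ρ * (4 * (K1 * (ρ + k)))) := by ring
    omega
  have h9 : 4 * (K1 * (ρ + k)) ≤ c + (2 * (ρ + 1) + k) :=
    Nat.le_of_mul_le_mul_left h8 (by omega)
  have h10 : 4 * (K1 * (ρ + k)) < K1 * (2 * ρ + 1 + k) + (2 * (ρ + 1) + k) := by omega
  nlinarith [Nat.mul_le_mul hK (le_refl ρ), Nat.mul_le_mul hK (le_refl k)]

/-- growth inside of a union of components of `G - F` -/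
theorem Homog.growth (H : Homog G o act h) (F A : Finset V) (k K1 r0 : ℕ) (hK : 2 ≤ K1)
    (hA : ∀ x ∈ A, ∀ y, G.Adj x y → y ∉ A → y ∈ F)
    (hF : ∀ x ρ, 1 ≤ ρ → (F ∩ ball G x ρ).card ≤ 2 * ρ + k)
    (hb : ∀ t, 1 ≤ t → t < r0 → 200 * K1 * (t * (t + k)) ≤ (ball G o t).card)
    (hdeg : K1 * (40 * (40 + k)) + (2 + k) ≤ (ball G o 1).card) {x : V} (hx : x ∈ A) :
    ∀ ρ, 1 ≤ ρ → ρ ≤ r0 → K1 * (ρ * (ρ + k)) ≤ (A ∩ ball G x ρ).card := by
  have h1 : K1 * (40 * (40 + k)) ≤ (A ∩ ball G x 1).card := by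
    have h2 : ball G x 1 ⊆ (A ∩ ball G x 1) ∪ (F ∩ ball G x 1) := by
      intro y hy
      rw [mem_union, mem_inter, mem_inter]
      by_cases hyA : y ∈ A
      · exact Or.inl ⟨hyA, hy⟩
      · right
        refine ⟨?_, hy⟩
        have h3 : G.dist x y = 1 := by
          have h4 := mem_ball.mp hy
          have h5 : G.dist x y ≠ 0 := by
            intro h6
            rw [H.conn.dist_eq_zero_iff] at h6
            exact hyA (h6 ▸ hx)
          omega
        exact hA x hx y (SimpleGraph.dist_eq_one_iff_adj.mp h3) hyA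
    have h3 := (card_le_card h2).trans (card_union_le _ _)
    have h4 := hF x 1 (le_refl _)
    rw [H.ball_card] at h3
    omega
  intro ρ
  induction ρ with
  | zero => intro h0; omega
  | succ ρ ih =>
    intro _ hr
    rcases Nat.lt_or_ge ρ 40 with h40 | h40
    · calc K1 * ((ρ + 1) * (ρ + 1 + k)) ≤ K1 * (40 * (40 + k)) :=
            Nat.mul_le_mul_left _ (Nat.mul_le_mul (by omega) (by omega))
        _ ≤ (A ∩ ball G x 1).card := h1
        _ ≤ (A ∩ ball G x (ρ + 1)).card :=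
            card_le_card (inter_subset_inter_left (ball_mono G x (by omega)))
    · have h2 := ih (by omega) (by omega)
      have hmono : (A ∩ ball G x ρ).card ≤ (A ∩ ball G x (ρ + 1)).card :=
        card_le_card (inter_subset_inter_left (ball_mono G x (by omega)))
      by_cases hbig : K1 * ((ρ + 1) * (ρ + 1 + k)) ≤ (A ∩ ball G x ρ).card
      · exact hbig.trans hmono
      push Not at hbig
      obtain ⟨t, ht1, ht2, ht3, ht4⟩ : ∃ t, ρ + 1 ≤ 10 * t ∧ 10 * t ≤ ρ + 10 ∧ 1 ≤ t ∧ t < r0 :=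
        ⟨(ρ + 10) / 10, by omega, by omega, by omega, by omega⟩
      have h3 : 2 * (A ∩ ball G x ρ).card ≤ (ball G o t).card := by
        have h4 := hb t ht3 ht4
        have h5 : (ρ + 1) * (ρ + 1 + k) ≤ 100 * (t * (t + k)) := by
          calc (ρ + 1) * (ρ + 1 + k) ≤ (10 * t) * (10 * t + 10 * k) :=
                Nat.mul_le_mul ht1 (by omega)
            _ = 100 * (t * (t + k)) := by ring
        have h6 : 2 * (K1 * ((ρ + 1) * (ρ + 1 + k))) ≤ 200 * K1 * (t * (t + k)) := by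
          calc 2 * (K1 * ((ρ + 1) * (ρ + 1 + k))) ≤ 2 * (K1 * (100 * (t * (t + k)))) :=
                Nat.mul_le_mul_left _ (Nat.mul_le_mul_left _ h5)
            _ = 200 * K1 * (t * (t + k)) := by ring
        omega
      have h4 := H.iso (A ∩ ball G x ρ)
        ((A ∩ (ball G x (ρ + 1) \ ball G x ρ)) ∪ (F ∩ ball G x (ρ + 1))) t h3 (by
          intro z hz y hzy hy
          rw [mem_inter, mem_ball] at hz
          have h5 : y ∈ ball G x (ρ + 1) := by
            rw [mem_ball]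
            have h6 := H.conn.dist_triangle (u := x) (v := z) (w := y)
            rw [SimpleGraph.dist_eq_one_iff_adj.mpr hzy] at h6
            omega
          rw [mem_union, mem_inter, mem_inter, mem_sdiff]
          by_cases hyA : y ∈ A
          · left
            refine ⟨hyA, h5, fun h6 => hy ?_⟩
            rw [mem_inter]
            exact ⟨hyA, h6⟩
          · exact Or.inr ⟨hA z hz.1 y hzy hyA, h5⟩)
      have h5 : ((A ∩ (ball G x (ρ + 1) \ ball G x ρ)) ∪ (F ∩ ball G x (ρ + 1))).card ≤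
          ((A ∩ ball G x (ρ + 1)).card - (A ∩ ball G x ρ).card) + (2 * (ρ + 1) + k) := by
        have h6 := card_union_le (A ∩ (ball G x (ρ + 1) \ ball G x ρ)) (F ∩ ball G x (ρ + 1))
        have h7 := hF x (ρ + 1) (by omega)
        have h8 : (A ∩ (ball G x (ρ + 1) \ ball G x ρ)).card + (A ∩ ball G x ρ).card ≤
            (A ∩ ball G x (ρ + 1)).card := by
          rw [← card_union_of_disjoint]
          · refine card_le_card ?_
            intro y hy
            rw [mem_union, mem_inter, mem_inter, mem_sdiff] at hy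
            rw [mem_inter]
            rcases hy with hy | hy
            · exact ⟨hy.1, hy.2.1⟩
            · exact ⟨hy.1, ball_mono G x (by omega) hy.2⟩
          · rw [disjoint_left]
            intro y hy hy'
            rw [mem_inter, mem_sdiff] at hy
            rw [mem_inter] at hy'
            exact hy.2.2 hy'.2
        omega
      exact step_arith hK h40 ht2 h2 (h4.trans (Nat.mul_le_mul_left _ h5)) hmono

theorem final_arith {k r : ℕ} (hr : 20 ≤ r)
    (h : (14000 * (r * (r + k))) * (14000 * ((r - 3) * (r - 3 + k))) ≤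
      2 * r * (200 * 14000 * ((2 * r + 1) * (2 * r + 1 + k))) * (6 * r + k)) : False := by
  obtain ⟨s, rfl⟩ : ∃ s, r = s + 20 := ⟨r - 20, by omega⟩
  have h1 : s + 20 - 3 = s + 17 := by omega
  rw [h1] at h
  have h2 : 17 * (s + 20) ≤ 20 * (s + 17) := by omega
  have h3 : 17 * (s + 20 + k) ≤ 20 * (s + 17 + k) := by omega
  have h4 : 20 * (2 * (s + 20) + 1) ≤ 41 * (s + 20) := by omega
  have h5 : 20 * (2 * (s + 20) + 1 + k) ≤ 41 * (s + 20 + k) := by omega
  have h6 : 6 * (s + 20) + k ≤ 6 * (s + 20 + k) := by omega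
  obtain ⟨X, hX⟩ : ∃ X, X = (s + 20) * (s + 20 + k) := ⟨_, rfl⟩
  have hXpos : 0 < X := by
    rw [hX]
    exact Nat.mul_pos (by omega) (by omega)
  have h7 : 289 * X ≤ 400 * ((s + 17) * (s + 17 + k)) := by
    calc 289 * X = (17 * (s + 20)) * (17 * (s + 20 + k)) := by rw [hX]; ring
      _ ≤ (20 * (s + 17)) * (20 * (s + 17 + k)) := Nat.mul_le_mul h2 h3
      _ = 400 * ((s + 17) * (s + 17 + k)) := by ring
  have h8 : 400 * ((2 * (s + 20) + 1) * (2 * (s + 20) + 1 + k)) ≤ 1681 * X := by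
    calc 400 * ((2 * (s + 20) + 1) * (2 * (s + 20) + 1 + k))
        = (20 * (2 * (s + 20) + 1)) * (20 * (2 * (s + 20) + 1 + k)) := by ring
      _ ≤ (41 * (s + 20)) * (41 * (s + 20 + k)) := Nat.mul_le_mul h4 h5
      _ = 1681 * X := by rw [hX]; ring
  have h9 : (14000 * X) * (14000 * (289 * X)) ≤
      2 * (200 * 14000 * (1681 * X)) * (6 * X) := by
    calc (14000 * X) * (14000 * (289 * X))
        ≤ (14000 * X) * (14000 * (400 * ((s + 17) * (s + 17 + k)))) :=
          Nat.mul_le_mul_left _ (Nat.mul_le_mul_left _ h7)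
      _ = 400 * ((14000 * ((s + 20) * (s + 20 + k))) * (14000 * ((s + 17) * (s + 17 + k)))) := by
          rw [hX]; ring
      _ ≤ 400 * (2 * (s + 20) * (200 * 14000 * ((2 * (s + 20) + 1) * (2 * (s + 20) + 1 + k))) *
          (6 * (s + 20) + k)) := Nat.mul_le_mul_left _ h
      _ = 2 * (s + 20) * (200 * 14000 * (400 * ((2 * (s + 20) + 1) * (2 * (s + 20) + 1 + k)))) *
          (6 * (s + 20) + k) := by ring
      _ ≤ 2 * (s + 20) * (200 * 14000 * (1681 * X)) * (6 * (s + 20 + k)) :=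
          Nat.mul_le_mul (Nat.mul_le_mul_left _ (Nat.mul_le_mul_left _ h8)) h6
      _ = 2 * (200 * 14000 * (1681 * X)) * (6 * ((s + 20) * (s + 20 + k))) := by ring
      _ = 2 * (200 * 14000 * (1681 * X)) * (6 * X) := by rw [hX]
  have h10 : (X * X) * (14000 * 14000 * 289) ≤ (X * X) * (2 * (200 * 14000 * 1681) * 6) := by
    calc (X * X) * (14000 * 14000 * 289) = (14000 * X) * (14000 * (289 * X)) := by ring
      _ ≤ 2 * (200 * 14000 * (1681 * X)) * (6 * X) := h9
      _ = (X * X) * (2 * (200 * 14000 * 1681) * 6) := by ring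
  have h11 := Nat.le_of_mul_le_mul_left h10 (Nat.mul_pos hXpos hXpos)
  norm_num at h11

/-- a sparse set does not separate a vertex-transitive graph of large degree -/
theorem Homog.no_cut (H : Homog G o act h) (F A B : Finset V) (k : ℕ)
    (hA : ∀ x ∈ A, ∀ y, G.Adj x y → y ∉ A → y ∈ F)
    (hB : ∀ x ∈ B, ∀ y, G.Adj x y → y ∉ B → y ∈ F)
    (hAB : ∀ x ∈ A, x ∉ B)
    (hF : ∀ x ρ, 1 ≤ ρ → (F ∩ ball G x ρ).card ≤ 2 * ρ + k)
    (hdeg : 112000000 * (k + 40) ≤ (ball G o 1).card)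
    {a b : V} (ha : a ∈ A) (hb : b ∈ B) (hab : G.dist a b ≤ 3) : False := by
  have hex : ∃ t, 1 ≤ t ∧ (ball G o t).card < 200 * 14000 * (t * (t + k)) := by
    refine ⟨Fintype.card V + 1, by omega, ?_⟩
    have h1 : (ball G o (Fintype.card V + 1)).card ≤ Fintype.card V := card_le_univ _
    have h2 : Fintype.card V + 1 ≤ 200 * 14000 * ((Fintype.card V + 1) *
        (Fintype.card V + 1 + k)) := by
      have h3 : 1 ≤ 200 * 14000 * (Fintype.card V + 1 + k) := by omega
      calc Fintype.card V + 1 = (Fintype.card V + 1) * 1 := by ring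
        _ ≤ (Fintype.card V + 1) * (200 * 14000 * (Fintype.card V + 1 + k)) :=
            Nat.mul_le_mul_left _ h3
        _ = _ := by ring
    omega
  obtain ⟨r0, ⟨hr1, hr0⟩, hmin⟩ : ∃ r0, (1 ≤ r0 ∧
      (ball G o r0).card < 200 * 14000 * (r0 * (r0 + k))) ∧
      ∀ t < r0, ¬ (1 ≤ t ∧ (ball G o t).card < 200 * 14000 * (t * (t + k))) :=
    ⟨Nat.find hex, Nat.find_spec hex, fun t ht => Nat.find_min hex ht⟩
  have hb' : ∀ t, 1 ≤ t → t < r0 → 200 * 14000 * (t * (t + k)) ≤ (ball G o t).card := by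
    intro t h1 h2
    by_contra h3
    exact hmin t h2 ⟨h1, by omega⟩
  have h40 : 40 < r0 := by
    by_contra hle
    have h1 : (ball G o 1).card ≤ (ball G o r0).card := card_le_card (ball_mono G o hr1)
    have h2 : r0 * (r0 + k) ≤ 40 * (40 + k) := Nat.mul_le_mul (by omega) (by omega)
    have h3 : 200 * 14000 * (r0 * (r0 + k)) ≤ 200 * 14000 * (40 * (40 + k)) :=
      Nat.mul_le_mul_left _ h2
    omega
  have hdeg' : 14000 * (40 * (40 + k)) + (2 + k) ≤ (ball G o 1).card := by omega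
  obtain ⟨r, hr⟩ : ∃ r, r = r0 / 2 := ⟨_, rfl⟩
  have hr20 : 20 ≤ r := by omega
  have hrA := H.growth F A k 14000 r0 (by norm_num) hA hF hb' hdeg' ha r (by omega) (by omega)
  have hrB := H.growth F B k 14000 r0 (by norm_num) hB hF hb' hdeg' hb (r - 3) (by omega)
    (by omega)
  have hrB' : 14000 * ((r - 3) * (r - 3 + k)) ≤ (B ∩ ball G a r).card := by
    refine hrB.trans (card_le_card (inter_subset_inter_left ?_))
    intro y hy
    rw [mem_ball] at hy ⊢
    have h1 := H.conn.dist_triangle (u := a) (v := b) (w := y)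
    omega
  have hP := H.poincare A B F a r hAB hA
  have hF3 := hF a (3 * r) (by omega)
  have hb2 : (ball G o (2 * r)).card ≤ 200 * 14000 * ((2 * r + 1) * (2 * r + 1 + k)) := by
    calc (ball G o (2 * r)).card ≤ (ball G o r0).card := card_le_card (ball_mono G o (by omega))
      _ ≤ 200 * 14000 * (r0 * (r0 + k)) := hr0.le
      _ ≤ 200 * 14000 * ((2 * r + 1) * (2 * r + 1 + k)) :=
          Nat.mul_le_mul_left _ (Nat.mul_le_mul (by omega) (by omega))
  refine final_arith (k := k) hr20 ?_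
  calc (14000 * (r * (r + k))) * (14000 * ((r - 3) * (r - 3 + k)))
      ≤ (A ∩ ball G a r).card * (B ∩ ball G a r).card := Nat.mul_le_mul hrA hrB'
    _ ≤ 2 * r * (ball G o (2 * r)).card * (F ∩ ball G a (3 * r)).card := hP
    _ ≤ 2 * r * (200 * 14000 * ((2 * r + 1) * (2 * r + 1 + k))) * (6 * r + k) :=
        Nat.mul_le_mul (Nat.mul_le_mul_left _ hb2) (by omega)

end Pool.Agent.VG86
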