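import Pool.Agent.VG86.Final

/-!
# Removal of geodesics under a two-dimensional isoperimetric inequality
-/

set_option autoImplicit false

namespace Pool.Agent.VG86

open Finset
open scoped Classical

/-- the vertex boundary -/
def bd {V : Type} (G : SimpleGraph V) (X : Set V) : Set V := {y | y ∉ X ∧ ∃ x ∈ X, G.Adj x y}

theorem sep_false {V : Type} {G : SimpleGraph V} {W : Set V} (hW : (G.induce Wᶜ).Connected)
    {X : Set V} {x z : V} (hx : x ∈ X) (hxW : x ∉ W) (hz : z ∉ X) (hzW : z ∉ W)
    (hX : ∀ x ∈ X, ∀ y, G.Adj x y → y ∈ X ∨ y ∈ W) : False := by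
  have h1 : ∀ (a b : (Wᶜ : Set V)), (G.induce Wᶜ).Walk a b → (a : V) ∈ X → (b : V) ∈ X := by
    intro a b p
    induction p with
    | nil => exact fun h => h
    | @cons a b c hab q ih =>
      intro ha
      refine ih ?_
      rcases hX _ ha _ hab with h | h
      · exact h
      · exact absurd h b.2
  obtain ⟨p⟩ := hW.preconnected ⟨x, hxW⟩ ⟨z, hzW⟩
  exact hz (h1 _ _ p hx)

variable {V : Type} [Fintype V] {G : SimpleGraph V}

/-- the growth argument -/
theorem no_small_side (hG : G.Connected) (k m : ℕ) (hm : 10 * k + 15 ≤ m)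
    (hf : ∀ S : Set V, S.ncard < m → (G.induce Sᶜ).Connected)
    (hiso : ∀ X : Set V, m ^ 2 ≤ 25 * X.ncard → 2 * X.ncard ≤ Fintype.card V →
      25 * X.ncard ≤ (bd G X).ncard ^ 2)
    (F A B : Finset V) (hA : ∀ x ∈ A, ∀ y, G.Adj x y → y ∉ A → y ∈ F)
    (hAB : ∀ x ∈ A, x ∉ B) (hBF : ∀ x ∈ B, x ∉ F)
    (hF : ∀ x ρ, 1 ≤ ρ → (F ∩ ball G x ρ).card ≤ 2 * ρ + k)
    (hsmall : 2 * A.card ≤ Fintype.card V)
    {x z : V} (hx : x ∈ A) (hz : z ∈ B) : False := by
  have key : ∀ ρ : ℕ, ρ * (ρ + k) ≤ (A ∩ ball G x ρ).card := by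
    intro ρ
    induction ρ with
    | zero => simp
    | succ ρ ih =>
      have hmono : (A ∩ ball G x ρ).card ≤ (A ∩ ball G x (ρ + 1)).card :=
        card_le_card (inter_subset_inter_left (ball_mono G x (by omega)))
      obtain ⟨X, hX⟩ : ∃ X, X = A ∩ ball G x ρ := ⟨_, rfl⟩
      have hxX : x ∈ X := by
        rw [hX, mem_inter, mem_ball]
        exact ⟨hx, by simp⟩
      -- the boundary is contained in the next sphere and F
      have hsub : bd G (X : Set V) ⊆
          (((A ∩ (ball G x (ρ + 1) \ ball G x ρ)) ∪ (F ∩ ball G x (ρ + 1)) : Finset V) : Set V) := by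
        rintro y ⟨hy, z, hz, hzy⟩
        rw [mem_coe, hX, mem_inter, mem_ball] at hz
        rw [mem_coe, hX] at hy
        have h5 : y ∈ ball G x (ρ + 1) := by
          rw [mem_ball]
          have h6 := hG.dist_triangle (u := x) (v := z) (w := y)
          rw [SimpleGraph.dist_eq_one_iff_adj.mpr hzy] at h6
          omega
        rw [mem_coe, mem_union, mem_inter, mem_inter, mem_sdiff]
        by_cases hyA : y ∈ A
        · left
          refine ⟨hyA, h5, fun h6 => hy ?_⟩
          rw [mem_inter]
          exact ⟨hyA, h6⟩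
        · exact Or.inr ⟨hA z hz.1 y hzy hyA, h5⟩
      have h1 : (bd G (X : Set V)).ncard ≤
          ((A ∩ ball G x (ρ + 1)).card - (A ∩ ball G x ρ).card) + (2 * (ρ + 1) + k) := by
        have h2 := Set.ncard_le_ncard hsub (Set.toFinite _)
        rw [Set.ncard_coe_finset] at h2
        have h6 := card_union_le (A ∩ (ball G x (ρ + 1) \ ball G x ρ)) (F ∩ ball G x (ρ + 1))
        have h7 := hF x (ρ + 1) (by omega)
        have h8 : (A ∩ (ball G x (ρ + 1) \ ball G x ρ)).card + (A ∩ ball G x ρ).card ≤
            (A ∩ ball G x (ρ + 1)).card := by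
          rw [← card_union_of_disjoint]
          · refine card_le_card ?_
            intro y hy
            rw [mem_union, mem_inter, mem_inter, mem_sdiff] at hy
            rw [mem_inter]
            rcases hy with hy | hy
            · exact ⟨hy.1, hy.2.1⟩
            · exact ⟨hy.1, ball_mono G x (by omega) hy.2⟩
          · rw [disjoint_left]
            intro y hy hy'
            rw [mem_inter, mem_sdiff] at hy
            rw [mem_inter] at hy'
            exact hy.2.2 hy'.2
        omega
      -- the boundary is large because of the connectivity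
      have h2m : m ≤ (bd G (X : Set V)).ncard := by
        by_contra hlt
        push Not at hlt
        have hXA : ∀ y ∈ X, y ∈ A := by
          intro y hy
          rw [hX, mem_inter] at hy
          exact hy.1
        refine sep_false (hf _ hlt) (X := (X : Set V)) (x := x) (z := z) hxX ?_ ?_ ?_ ?_
        · intro h3
          exact h3.1 hxX
        · intro h3
          exact hAB z (hXA z h3) hz
        · rintro ⟨-, y, hy, hyz⟩
          exact hBF z hz (hA y (hXA y hy) z hyz (fun h4 => hAB z h4 hz))
        · intro y hy y' hyy'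
          by_cases h3 : y' ∈ (X : Set V)
          · exact Or.inl h3
          · exact Or.inr ⟨h3, y, hy, hyy'⟩
      have h2 : 10 * k + 15 ≤ (bd G (X : Set V)).ncard := le_trans hm h2m
      have h3 : 25 * (A ∩ ball G x ρ).card ≤ (bd G (X : Set V)).ncard ^ 2 := by
        rcases Nat.lt_or_ge (25 * (A ∩ ball G x ρ).card) (m ^ 2) with h5 | h5
        · exact le_trans h5.le (Nat.pow_le_pow_left h2m 2)
        · have h4 := hiso (X : Set V) (by rw [Set.ncard_coe_finset, hX]; exact h5) (by
            rw [Set.ncard_coe_finset, hX]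
            have := card_le_card (inter_subset_left : A ∩ ball G x ρ ⊆ A)
            omega)
          rw [Set.ncard_coe_finset] at h4
          rw [← hX]
          exact h4
      have h9 : (ρ + 1) * (ρ + 1 + k) = ρ * (ρ + k) + (2 * ρ + 1 + k) := by ring
      rw [h9]
      rcases Nat.lt_or_ge ρ (2 * k + 3) with h4 | h4
      · omega
      · have h5 : 5 * ρ ≤ (bd G (X : Set V)).ncard := by
          by_contra h6
          push Not at h6
          have h7 : (bd G (X : Set V)).ncard ^ 2 < (5 * ρ) ^ 2 := Nat.pow_lt_pow_left h6 (by norm_num)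
          have h8 : (5 * ρ) ^ 2 ≤ 25 * (ρ * (ρ + k)) := by nlinarith
          omega
        omega
  have h1 := key (Fintype.card V + 1)
  have h2 : (A ∩ ball G x (Fintype.card V + 1)).card ≤ Fintype.card V := card_le_univ _
  nlinarith

theorem conn_of_mconn {V : Type} {G : SimpleGraph V} {m : ℕ} (hm : 1 ≤ m)
    (hf : ∀ S : Set V, S.ncard < m → (G.induce Sᶜ).Connected) (v : V) : G.Connected := by
  have h1 := hf ∅ (by rw [Set.ncard_empty]; omega)
  refine SimpleGraph.Connected.mk ?_ (nonempty := ⟨v⟩)
  intro x y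
  obtain ⟨q⟩ := h1.preconnected ⟨x, by simp⟩ ⟨y, by simp⟩
  exact ⟨q.map (SimpleGraph.Embedding.induce _).toHom⟩

theorem iso_main (k m : ℕ) (hm : 10 * k + 15 ≤ m) (hf : m < Fintype.card V ∧
      ∀ S : Set V, S.ncard < m → (G.induce Sᶜ).Connected)
    (hiso : ∀ X : Set V, m ^ 2 ≤ 25 * X.ncard → 2 * X.ncard ≤ Fintype.card V →
      25 * X.ncard ≤ (bd G X).ncard ^ 2)
    {v w : V} (p : G.Walk v w) (hp : p.length = G.dist v w) :
    p.IsPath ∧
      (∀ x ∈ p.support, ∀ y ∈ p.support, G.Adj x y → s(x, y) ∈ p.edges) ∧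
      k < Nat.card ({x : V | x ∉ p.support} : Set V) ∧
      ∀ S0 : Set ({x : V | x ∉ p.support} : Set V), S0.ncard < k →
        ((G.induce ({x : V | x ∉ p.support} : Set V)).induce S0ᶜ).Connected := by
  have hG : G.Connected := conn_of_mconn (by omega) hf.2 v
  -- the degree of `v`
  have hdeg : 10 * k + 15 ≤ (G.neighborSet v).ncard := by
    by_contra hlt
    push Not at hlt
    have h1 : ∃ z, z ≠ v ∧ z ∉ G.neighborSet v := by
      by_contra hno
      push Not at hno
      have h2 : (Set.univ : Set V) ⊆ insert v (G.neighborSet v) := by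
        intro z _
        by_cases hz : z = v
        · exact Or.inl hz
        · exact Or.inr (hno z hz)
      have h3 := Set.ncard_le_ncard h2 (Set.toFinite _)
      have h4 := Set.ncard_insert_le v (G.neighborSet v)
      rw [Set.ncard_univ, Nat.card_eq_fintype_card] at h3
      omega
    obtain ⟨z, hz1, hz2⟩ := h1
    refine sep_false (hf.2 _ (lt_of_lt_of_le hlt hm)) (X := {v}) (x := v) (z := z) rfl ?_ hz1 hz2 ?_
    · intro h2
      exact G.loopless.irrefl v h2
    · rintro x rfl y hxy
      exact Or.inr hxy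
  have hcount : k < ({x : V | x ∉ p.support} : Set V).ncard := by
    have hfin : (G.neighborSet v).Finite := Set.toFinite _
    rw [Set.ncard_eq_toFinset_card _ hfin] at hdeg
    have h2 : (hfin.toFinset.filter (fun y => y ∈ p.support)).card ≤ 2 * 1 + 1 := by
      refine card_near_geodesic hG p hp v 1 _ ?_
      intro y hy
      rw [mem_filter, Set.Finite.mem_toFinset] at hy
      refine ⟨hy.2, ?_⟩
      rw [SimpleGraph.dist_eq_one_iff_adj.mpr hy.1]
    have h3 := card_filter_add_card_filter_not (s := hfin.toFinset) (fun y => y ∈ p.support)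
    have h4 : ((hfin.toFinset.filter (fun y => ¬ y ∈ p.support) : Finset V) : Set V).ncard ≤
        ({x : V | x ∉ p.support} : Set V).ncard := by
      refine Set.ncard_le_ncard ?_ (Set.toFinite _)
      intro y hy
      rw [mem_coe, mem_filter] at hy
      exact hy.2
    rw [Set.ncard_coe_finset] at h4
    omega
  refine ⟨p.isPath_of_length_eq_dist hp, geodesic_induced hG p hp, ?_, ?_⟩
  · rw [Nat.card_coe_set_eq]
    exact hcount
  · intro S0 hS0
    obtain ⟨F, hF⟩ : ∃ F : Finset V, ∀ x, x ∈ F ↔ x ∈ Del {x : V | x ∉ p.support} S0 := by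
      refine ⟨(Set.toFinite (Del {x : V | x ∉ p.support} S0)).toFinset, fun x => ?_⟩
      rw [Set.Finite.mem_toFinset]
    have hsp : ∀ x ρ, 1 ≤ ρ → (F ∩ ball G x ρ).card ≤ 2 * ρ + k := by
      intro x ρ _
      refine del_sparse hG p hp S0 hS0 x ρ _ ?_
      intro y hy
      rw [mem_inter, hF, mem_ball] at hy
      exact hy
    refine connected_of_conn G _ S0 ?_ ?_
    · by_contra hno
      push Not at hno
      have h1 : S0 = Set.univ := by
        refine Set.eq_univ_of_forall ?_
        rintro ⟨x, hx⟩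
        rcases hno x with h2 | ⟨_, h2⟩
        · exact absurd hx h2
        · exact h2
      rw [h1, Set.ncard_univ, Nat.card_coe_set_eq] at hS0
      omega
    · intro a b ha hb
      by_contra hnc
      obtain ⟨A, hA⟩ : ∃ A : Finset V, ∀ x, x ∈ A ↔
          x ∉ Del {x : V | x ∉ p.support} S0 ∧ Conn G (Del {x : V | x ∉ p.support} S0) a x := by
        refine ⟨(Set.toFinite {x | x ∉ Del {x : V | x ∉ p.support} S0 ∧
          Conn G (Del {x : V | x ∉ p.support} S0) a x}).toFinset, fun x => ?_⟩
        rw [Set.Finite.mem_toFinset]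
        rfl
      obtain ⟨B, hB⟩ : ∃ B : Finset V, ∀ x, x ∈ B ↔
          x ∉ Del {x : V | x ∉ p.support} S0 ∧ ¬ Conn G (Del {x : V | x ∉ p.support} S0) a x := by
        refine ⟨(Set.toFinite {x | x ∉ Del {x : V | x ∉ p.support} S0 ∧
          ¬ Conn G (Del {x : V | x ∉ p.support} S0) a x}).toFinset, fun x => ?_⟩
        rw [Set.Finite.mem_toFinset]
        rfl
      have hAc : ∀ x ∈ A, ∀ y, G.Adj x y → y ∉ A → y ∈ F := by
        intro x hx y hxy hy
        rw [hA] at hx hy
        rw [hF]
        by_contra hyF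
        exact hy ⟨hyF, hx.2.tail ⟨hxy, hx.1, hyF⟩⟩
      have hBc : ∀ x ∈ B, ∀ y, G.Adj x y → y ∉ B → y ∈ F := by
        intro x hx y hxy hy
        rw [hB] at hx hy
        rw [hF]
        by_contra hyF
        refine hy ⟨hyF, fun hc => hx.2 (hc.tail ⟨hxy.symm, hyF, hx.1⟩)⟩
      have hAB : ∀ x ∈ A, x ∉ B := by
        intro x hx hx'
        rw [hA] at hx
        rw [hB] at hx'
        exact hx'.2 hx.2
      have hAF : ∀ x ∈ A, x ∉ F := by
        intro x hx
        rw [hF]
        exact ((hA x).mp hx).1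
      have hBF : ∀ x ∈ B, x ∉ F := by
        intro x hx
        rw [hF]
        exact ((hB x).mp hx).1
      have haA : a ∈ A := (hA a).mpr ⟨ha, Conn.refl a⟩
      have hbB : b ∈ B := (hB b).mpr ⟨hb, hnc⟩
      have hsum : A.card + B.card ≤ Fintype.card V := by
        rw [← card_union_of_disjoint (disjoint_left.mpr hAB)]
        exact card_le_univ _
      rcases Nat.le_total A.card B.card with h1 | h1
      · exact no_small_side hG k m hm hf.2 hiso F A B hAc hAB hBF hsp (by omega) haA hbB
      · exact no_small_side hG k m hm hf.2 hiso F B A hBc (fun x hx hx' => hAB x hx' hx) hAF hsp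
          (by omega) hbB haA

end Pool.Agent.VG86
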