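import Pool.Agent.VG86.Final

/-!
# Isoperimetry in graphs with several orbits
-/

set_option autoImplicit false

namespace Pool.Agent.VG86

open Finset
open scoped Classical

variable {V Ψ : Type} [Fintype V] [Fintype Ψ]

/-- a finite family of automorphisms together with an orbit `U` of heaviest vertices -/
structure MHomog (G : SimpleGraph V) (o : V) (act : Ψ → V → V) (U : Finset V) (wt : V → ℕ)
    (h : ℕ) : Prop where
  conn : G.Connected
  adj : ∀ ψ x y, G.Adj x y → G.Adj (act ψ x) (act ψ y)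
  inj : ∀ ψ, Function.Injective (act ψ)
  dist : ∀ ψ x y, G.dist (act ψ x) (act ψ y) = G.dist x y
  oU : o ∈ U
  actU : ∀ ψ x, act ψ x ∈ U ↔ x ∈ U
  cnt_le : ∀ z z', (univ.filter (fun ψ => act ψ z = z')).card ≤ wt z'
  cntU : ∀ z ∈ U, (univ.filter (fun ψ => act ψ o = z)).card = h
  wt_le : ∀ z, wt z ≤ h
  wtU : ∀ z ∈ U, wt z = h
  pos : 0 < h
  ball_card : ∀ x ∈ U, ∀ r, (U ∩ ball G x r).card = (U ∩ ball G o r).card

variable {G : SimpleGraph V} {o : V} {act : Ψ → V → V} {U : Finset V} {wt : V → ℕ} {h : ℕ}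

theorem MHomog.cnt_mem_le (H : MHomog G o act U wt h) (z : V) (W : Finset V) :
    (univ.filter (fun ψ => act ψ z ∈ W)).card ≤ ∑ y ∈ W, wt y := by
  have h2 : (univ.filter (fun ψ => act ψ z ∈ W)).card =
      ∑ y ∈ W, ((univ.filter (fun ψ => act ψ z ∈ W)).filter (fun ψ => act ψ z = y)).card := by
    refine card_eq_sum_card_fiberwise ?_
    intro v hv
    exact (mem_filter.mp hv).2
  rw [h2]
  refine sum_le_sum fun y _ => ?_
  refine (card_le_card ?_).trans (H.cnt_le z y)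
  intro ψ hψ
  rw [mem_filter] at hψ ⊢
  exact ⟨mem_univ _, hψ.2⟩

theorem MHomog.cnt_mem_o (H : MHomog G o act U wt h) (W : Finset V) :
    (univ.filter (fun ψ => act ψ o ∈ W)).card = h * (U ∩ W).card := by
  have h2 : (univ.filter (fun ψ => act ψ o ∈ W)).card =
      ∑ y ∈ U ∩ W, ((univ.filter (fun ψ => act ψ o ∈ W)).filter (fun ψ => act ψ o = y)).card := by
    refine card_eq_sum_card_fiberwise ?_
    intro ψ hψ
    rw [mem_coe, mem_filter] at hψ
    rw [mem_coe, mem_inter]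
    exact ⟨(H.actU ψ o).mpr H.oU, hψ.2⟩
  rw [h2]
  have h3 : ∀ y ∈ U ∩ W, ((univ.filter (fun ψ => act ψ o ∈ W)).filter
      (fun ψ => act ψ o = y)).card = h := by
    intro y hy
    rw [mem_inter] at hy
    rw [← H.cntU y hy.1]
    congr 1
    ext ψ
    simp only [mem_filter, mem_univ, true_and]
    constructor
    · exact fun h => h.2
    · intro h
      exact ⟨by rw [h]; exact hy.2, h⟩
  rw [sum_congr rfl h3, sum_const, smul_eq_mul, mul_comm]

/-- the upper bound for the number of crossings -/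
theorem MHomog.cross (H : MHomog G o act U wt h) (ρ : ℕ) (W : Finset V) (S : Finset (Ψ × V))
    (π : ∀ y : V, G.Walk o y)
    (hS : ∀ p ∈ S, p.2 ∈ U ∩ ball G o ρ ∧ ∃ i, 1 ≤ i ∧ i ≤ ρ ∧ act p.1 ((π p.2).getVert i) ∈ W) :
    S.card ≤ (U ∩ ball G o ρ).card * ρ * (∑ y ∈ W, wt y) := by
  have h1 : S ⊆ ((U ∩ ball G o ρ) ×ˢ Icc 1 ρ).biUnion (fun q =>
      (univ.filter (fun ψ => act ψ ((π q.1).getVert q.2) ∈ W)).image (fun ψ => (ψ, q.1))) := by
    rintro ⟨ψ, y⟩ hp
    obtain ⟨hy, i, hi1, hi2, hi3⟩ := hS _ hp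
    rw [mem_biUnion]
    refine ⟨(y, i), ?_, ?_⟩
    · rw [mem_product, mem_Icc]
      exact ⟨hy, hi1, hi2⟩
    · rw [mem_image]
      refine ⟨ψ, ?_, rfl⟩
      rw [mem_filter]
      exact ⟨mem_univ _, hi3⟩
  calc S.card ≤ _ := card_le_card h1
    _ ≤ ∑ q ∈ (U ∩ ball G o ρ) ×ˢ Icc 1 ρ, ((univ.filter
          (fun ψ => act ψ ((π q.1).getVert q.2) ∈ W)).image (fun ψ => (ψ, q.1))).card :=
        card_biUnion_le
    _ ≤ ∑ _q ∈ (U ∩ ball G o ρ) ×ˢ Icc 1 ρ, (∑ y ∈ W, wt y) := by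
        refine sum_le_sum fun q _ => ?_
        exact card_image_le.trans (H.cnt_mem_le ((π q.1).getVert q.2) W)
    _ = (U ∩ ball G o ρ).card * ρ * (∑ y ∈ W, wt y) := by
        rw [sum_const, smul_eq_mul, card_product, Nat.card_Icc]
        simp

/-- isoperimetric inequality -/
theorem MHomog.iso (H : MHomog G o act U wt h) (X W : Finset V) (r : ℕ)
    (hX : 2 * (U ∩ X).card ≤ (U ∩ ball G o r).card)
    (hW : ∀ x ∈ X, ∀ y, G.Adj x y → y ∉ X → y ∈ W) :
    h * (U ∩ X).card ≤ 2 * r * (∑ y ∈ W, wt y) := by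
  choose π hπ using fun y => H.conn.exists_walk_length_eq_dist o y
  -- the pairs
  obtain ⟨S, hS⟩ : ∃ S : Finset (Ψ × V), ∀ p, p ∈ S ↔
      act p.1 o ∈ X ∧ p.2 ∈ U ∩ ball G o r ∧ act p.1 p.2 ∉ X := by
    refine ⟨univ.filter (fun p => act p.1 o ∈ X ∧ p.2 ∈ U ∩ ball G o r ∧ act p.1 p.2 ∉ X), ?_⟩
    intro p
    rw [mem_filter]
    exact ⟨fun h => h.2, fun h => ⟨mem_univ _, h⟩⟩
  have hup := H.cross r W S π (by
    rintro ⟨ψ, y⟩ hp
    obtain ⟨h1, h2, h3⟩ := (hS _).mp hp
    simp only at h1 h2 h3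
    refine ⟨h2, ?_⟩
    have hlen : (π y).length ≤ r := by
      rw [hπ]
      exact mem_ball.mp (mem_inter.mp h2).2
    obtain ⟨i, hi1, hi2, hi3⟩ := first_exit (X := X) (W := W)
      (f := fun i => act ψ ((π y).getVert i)) (n := (π y).length)
      (by simpa using h1) (by simpa using h3) (by
        intro i hi h4 h5
        exact hW _ h4 _ (H.adj ψ _ _ ((π y).adj_getVert_succ hi)) h5)
    exact ⟨i, hi1, hi2.trans hlen, hi3⟩)
  have hlow : h * (U ∩ X).card * ((U ∩ ball G o r).card - (U ∩ X).card) ≤ S.card := by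
    have h1 : (univ.filter (fun ψ => act ψ o ∈ X)).card = h * (U ∩ X).card := H.cnt_mem_o X
    have h2 : S.card = ∑ ψ ∈ univ.filter (fun ψ => act ψ o ∈ X),
        (S.filter (fun p => p.1 = ψ)).card := by
      refine card_eq_sum_card_fiberwise ?_
      intro p hp
      rw [mem_coe, mem_filter]
      exact ⟨mem_univ _, ((hS p).mp hp).1⟩
    rw [h2, ← h1]
    have h3 : ∀ ψ ∈ univ.filter (fun ψ => act ψ o ∈ X), (U ∩ ball G o r).card - (U ∩ X).card ≤
        (S.filter (fun p => p.1 = ψ)).card := by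
      intro ψ hψ
      have h4 : ((U ∩ ball G o r).filter (fun y => act ψ y ∉ X)).card ≤
          (S.filter (fun p => p.1 = ψ)).card := by
        refine card_le_card_of_injOn (fun y => (ψ, y)) ?_ ?_
        · intro y hy
          rw [mem_coe, mem_filter] at hy
          rw [mem_coe, mem_filter, hS]
          exact ⟨⟨(mem_filter.mp hψ).2, hy.1, hy.2⟩, rfl⟩
        · intro y _ y' _ heq
          exact (Prod.mk.inj heq).2
      have h5 : ((U ∩ ball G o r).filter (fun y => act ψ y ∈ X)).card ≤ (U ∩ X).card := by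
        refine card_le_card_of_injOn (act ψ) ?_ ((H.inj ψ).injOn)
        intro y hy
        rw [mem_coe, mem_filter, mem_inter] at hy
        rw [mem_coe, mem_inter]
        exact ⟨(H.actU ψ y).mpr hy.1.1, hy.2⟩
      have h6 := card_filter_add_card_filter_not (s := U ∩ ball G o r) (fun y => act ψ y ∈ X)
      omega
    calc (univ.filter (fun ψ => act ψ o ∈ X)).card * ((U ∩ ball G o r).card - (U ∩ X).card)
        = ∑ _ψ ∈ univ.filter (fun ψ => act ψ o ∈ X),
            ((U ∩ ball G o r).card - (U ∩ X).card) := by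
          rw [sum_const, smul_eq_mul]
      _ ≤ _ := sum_le_sum h3
  obtain ⟨M, hM⟩ : ∃ M, M = ∑ y ∈ W, wt y := ⟨_, rfl⟩
  rw [← hM] at hup ⊢
  have hbpos : 0 < (U ∩ ball G o r).card := by
    refine card_pos.mpr ⟨o, ?_⟩
    rw [mem_inter, mem_ball]
    exact ⟨H.oU, by simp⟩
  have hb : (U ∩ ball G o r).card ≤ 2 * ((U ∩ ball G o r).card - (U ∩ X).card) := by omega
  have h7 : h * (U ∩ X).card * (U ∩ ball G o r).card ≤
      2 * ((U ∩ ball G o r).card * r * M) := by
    calc h * (U ∩ X).card * (U ∩ ball G o r).card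
        ≤ h * (U ∩ X).card * (2 * ((U ∩ ball G o r).card - (U ∩ X).card)) :=
          Nat.mul_le_mul_left _ hb
      _ = 2 * (h * (U ∩ X).card * ((U ∩ ball G o r).card - (U ∩ X).card)) := by ring
      _ ≤ 2 * ((U ∩ ball G o r).card * r * M) := Nat.mul_le_mul_left _ (hlow.trans hup)
  have h8 : (U ∩ ball G o r).card * (h * (U ∩ X).card) ≤
      (U ∩ ball G o r).card * (2 * r * M) := by
    calc (U ∩ ball G o r).card * (h * (U ∩ X).card)
        = h * (U ∩ X).card * (U ∩ ball G o r).card := by ring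
      _ ≤ 2 * ((U ∩ ball G o r).card * r * M) := h7
      _ = (U ∩ ball G o r).card * (2 * r * M) := by ring
  exact Nat.le_of_mul_le_mul_left h8 hbpos

/-- local Poincare inequality for two sets separated by `W` -/
theorem MHomog.poincare (H : MHomog G o act U wt h) (X Y W : Finset V) (p : V) (r : ℕ)
    (hXY : ∀ x ∈ X, x ∉ Y)
    (hW : ∀ x ∈ X, ∀ y, G.Adj x y → y ∉ X → y ∈ W) :
    (U ∩ (X ∩ ball G p r)).card * (U ∩ (Y ∩ ball G p r)).card ≤
      2 * r * (U ∩ ball G o (2 * r)).card * (W ∩ ball G p (3 * r)).card := by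
  choose π hπ using fun y => H.conn.exists_walk_length_eq_dist o y
  obtain ⟨S, hS⟩ : ∃ S : Finset (Ψ × V), ∀ q, q ∈ S ↔
      act q.1 o ∈ X ∩ ball G p r ∧ act q.1 q.2 ∈ U ∩ (Y ∩ ball G p r) := by
    refine ⟨univ.filter (fun q => act q.1 o ∈ X ∩ ball G p r ∧
      act q.1 q.2 ∈ U ∩ (Y ∩ ball G p r)), ?_⟩
    intro q
    rw [mem_filter]
    exact ⟨fun h => h.2, fun h => ⟨mem_univ _, h⟩⟩
  have hup := H.cross (2 * r) (W ∩ ball G p (3 * r)) S π (by
    rintro ⟨ψ, y⟩ hp
    obtain ⟨h1, h2⟩ := (hS _).mp hp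
    simp only [mem_inter, mem_ball] at h1 h2
    have h3 : G.dist o y ≤ 2 * r := by
      rw [← H.dist ψ]
      have h4 := H.conn.dist_triangle (u := act ψ o) (v := p) (w := act ψ y)
      have h5 := h1.2
      rw [SimpleGraph.dist_comm] at h5
      omega
    refine ⟨mem_inter.mpr ⟨(H.actU ψ y).mp h2.1, mem_ball.mpr h3⟩, ?_⟩
    have hlen : (π y).length ≤ 2 * r := by
      rw [hπ]
      exact h3
    obtain ⟨i, hi1, hi2, hi3⟩ := first_exit (X := X) (W := W)
      (f := fun i => act ψ ((π y).getVert i)) (n := (π y).length)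
      (by simpa using h1.1) (by
        intro h6
        simp only [SimpleGraph.Walk.getVert_length] at h6
        exact hXY _ h6 h2.2.1) (by
        intro i hi h4 h5
        exact hW _ h4 _ (H.adj ψ _ _ ((π y).adj_getVert_succ hi)) h5)
    refine ⟨i, hi1, hi2.trans hlen, ?_⟩
    rw [mem_inter, mem_ball]
    refine ⟨hi3, ?_⟩
    have h4 : G.dist (act ψ o) (act ψ ((π y).getVert i)) ≤ 2 * r := by
      rw [H.dist ψ]
      have h5 := SimpleGraph.dist_le ((π y).take i)
      rw [SimpleGraph.Walk.take_length] at h5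
      omega
    have h5 := H.conn.dist_triangle (u := p) (v := act ψ o) (w := act ψ ((π y).getVert i))
    have h6 := h1.2
    simp only
    omega)
  have hlow : h * (U ∩ (X ∩ ball G p r)).card * (U ∩ (Y ∩ ball G p r)).card ≤ S.card := by
    have h1 : (univ.filter (fun ψ => act ψ o ∈ X ∩ ball G p r)).card =
      h * (U ∩ (X ∩ ball G p r)).card := H.cnt_mem_o _
    have h2 : S.card = ∑ ψ ∈ univ.filter (fun ψ => act ψ o ∈ X ∩ ball G p r),
        (S.filter (fun q => q.1 = ψ)).card := by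
      refine card_eq_sum_card_fiberwise ?_
      intro q hq
      rw [mem_coe, mem_filter]
      exact ⟨mem_univ _, ((hS q).mp hq).1⟩
    rw [h2, ← h1]
    have h3 : ∀ ψ ∈ univ.filter (fun ψ => act ψ o ∈ X ∩ ball G p r),
        (U ∩ (Y ∩ ball G p r)).card ≤ (S.filter (fun q => q.1 = ψ)).card := by
      intro ψ hψ
      have h4 : U ∩ (Y ∩ ball G p r) ⊆
          (S.filter (fun q => q.1 = ψ)).image (fun q => act ψ q.2) := by
        intro z hz
        obtain ⟨y, hy⟩ := (Finite.injective_iff_surjective.mp (H.inj ψ)) z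
        rw [mem_image]
        refine ⟨(ψ, y), ?_, hy⟩
        rw [mem_filter, hS]
        exact ⟨⟨(mem_filter.mp hψ).2, by rw [hy]; exact hz⟩, rfl⟩
      exact (card_le_card h4).trans card_image_le
    calc (univ.filter (fun ψ => act ψ o ∈ X ∩ ball G p r)).card * (U ∩ (Y ∩ ball G p r)).card
        = ∑ _ψ ∈ univ.filter (fun ψ => act ψ o ∈ X ∩ ball G p r),
            (U ∩ (Y ∩ ball G p r)).card := by
          rw [sum_const, smul_eq_mul]
      _ ≤ _ := sum_le_sum h3
  have hM : ∑ y ∈ W ∩ ball G p (3 * r), wt y ≤ h * (W ∩ ball G p (3 * r)).card := by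
    calc ∑ y ∈ W ∩ ball G p (3 * r), wt y ≤ ∑ _y ∈ W ∩ ball G p (3 * r), h :=
          sum_le_sum fun y _ => H.wt_le y
      _ = h * (W ∩ ball G p (3 * r)).card := by rw [sum_const, smul_eq_mul, mul_comm]
  have h8 : h * ((U ∩ (X ∩ ball G p r)).card * (U ∩ (Y ∩ ball G p r)).card) ≤
      h * (2 * r * (U ∩ ball G o (2 * r)).card * (W ∩ ball G p (3 * r)).card) := by
    calc h * ((U ∩ (X ∩ ball G p r)).card * (U ∩ (Y ∩ ball G p r)).card)
        = h * (U ∩ (X ∩ ball G p r)).card * (U ∩ (Y ∩ ball G p r)).card := by ring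
      _ ≤ (U ∩ ball G o (2 * r)).card * (2 * r) * (∑ y ∈ W ∩ ball G p (3 * r), wt y) :=
          hlow.trans hup
      _ ≤ (U ∩ ball G o (2 * r)).card * (2 * r) * (h * (W ∩ ball G p (3 * r)).card) :=
          Nat.mul_le_mul_left _ hM
      _ = h * (2 * r * (U ∩ ball G o (2 * r)).card * (W ∩ ball G p (3 * r)).card) := by ring
  exact Nat.le_of_mul_le_mul_left h8 H.pos

end Pool.Agent.VG86
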