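import Pool.Agent.VG86.WFinal

/-!
# Cases of the theorem for graphs with few orbits: orbits of equal size, vertex-transitive graphs,
edge-transitive graphs
-/

set_option autoImplicit false

namespace Pool.Agent.VG86

open Finset
open scoped Classical

/-- the whole graph, with a finite group acting -/
theorem whole_graph (k q : ℕ) (V : Type) [Fintype V] (G : SimpleGraph V) (hG : G.Connected)
    (Γ : Type) [Group Γ] [Fintype Γ] [MulAction Γ V]
    (hact : ∀ (g : Γ) (x y : V), G.Adj x y → G.Adj (g • x) (g • y))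
    (R : Fin q → V) (hR : ∀ x : V, ∃ i, ∃ g : Γ, g • R i = x)
    (hdeg : ∀ x o : V, 112000000 * q ^ 9 * (k + 40 * q ^ 2) * gwgt Γ o ≤ gsum Γ G x)
    {v w : V} (p : G.Walk v w) (hp : p.length = G.dist v w) :
    p.IsPath ∧
      (∀ x ∈ p.support, ∀ y ∈ p.support, G.Adj x y → s(x, y) ∈ p.edges) ∧
      k < Nat.card ({x : V | x ∉ p.support} : Set V) ∧
      ∀ S0 : Set ({x : V | x ∉ p.support} : Set V), S0.ncard < k →
        ((G.induce ({x : V | x ∉ p.support} : Set V)).induce S0ᶜ).Connected := by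
  have hsc := gsparse_conn Γ hact k q hG R hR
    (fun x => ⟨0, Nat.zero_le _, fun _ => x, rfl, fun i hi => absurd hi (Nat.not_lt_zero i),
      fun o => hdeg x o⟩)
  let e : (G.induce (Set.univ : Set V)) ≃g G := SimpleGraph.induceUnivIso G
  let μ : MulAction Γ (Set.univ : Set V) :=
    { smul := fun g x => ⟨g • (x : V), trivial⟩
      one_smul := fun x => Subtype.ext (one_smul Γ (x : V))
      mul_smul := fun g g' x => Subtype.ext (mul_smul g g' (x : V)) }
  have hsm : ∀ (g : Γ) (x : (Set.univ : Set V)), ((g • x : (Set.univ : Set V)) : V) =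
      g • (x : V) := fun _ _ => rfl
  refine (core_weighted k q Set.univ (G.induce Set.univ) (fun x y h => h)
    (e.connected_iff.mpr hG) Γ (fun g x y h => hact g x y h) (fun i => ⟨R i, trivial⟩) ?_ ?_ ?_).2
    p hp
  · rintro ⟨x, -⟩
    obtain ⟨i, g, h⟩ := hR x
    exact ⟨i, g, Subtype.ext h⟩
  · rintro ⟨x, -⟩
    refine ⟨0, Nat.zero_le _, fun _ => ⟨x, trivial⟩, rfl,
      fun i hi => absurd hi (Nat.not_lt_zero i), ?_⟩
    rintro ⟨o, -⟩
    have h1 := hdeg x o
    rw [gwgt_eq_card, gsum_eq] at h1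
    have h2 : Nat.card {g : Γ // g • (⟨o, trivial⟩ : (Set.univ : Set V)) = ⟨o, trivial⟩} =
        Nat.card {g : Γ // g • o = o} := by
      refine Nat.card_congr (Equiv.subtypeEquivRight fun g => ?_)
      constructor
      · intro h
        have h3 := congrArg Subtype.val h
        exact h3
      · intro h
        exact Subtype.ext h
    have h3 : Nat.card {p : ↥(Set.univ : Set V) × Γ //
        (G.induce Set.univ).Adj ⟨x, trivial⟩ p.1 ∧ p.2 • p.1 = p.1} =
        Nat.card {p : V × Γ // G.Adj x p.1 ∧ p.2 • p.1 = p.1} := by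
      refine Nat.card_congr ⟨fun p => ⟨(p.1.1, p.1.2), p.2.1, congrArg Subtype.val p.2.2⟩,
        fun p => ⟨(⟨p.1.1, trivial⟩, p.1.2), p.2.1, Subtype.ext p.2.2⟩, ?_, ?_⟩
      · intro p
        rfl
      · intro p
        rfl
    rw [h2, h3]
    exact h1
  · intro z hz
    exact absurd trivial hz

/-- all orbits have the same size (in particular: a group that acts freely with `q` orbits) -/
theorem equal_orbits_case (k q : ℕ) (V : Type) [Fintype V] (G : SimpleGraph V) (hG : G.Connected)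
    (Γ : Type) [Group Γ] [Fintype Γ] [MulAction Γ V]
    (hact : ∀ (g : Γ) (x y : V), G.Adj x y → G.Adj (g • x) (g • y))
    (R : Fin q → V) (hR : ∀ x : V, ∃ i, ∃ g : Γ, g • R i = x)
    (hst : ∀ x y : V, Nat.card {g : Γ // g • x = x} = Nat.card {g : Γ // g • y = y})
    (hdeg : ∀ x : V, 112000000 * q ^ 9 * (k + 40 * q ^ 2) ≤ (G.neighborSet x).ncard)
    {v w : V} (p : G.Walk v w) (hp : p.length = G.dist v w) :
    p.IsPath ∧
      (∀ x ∈ p.support, ∀ y ∈ p.support, G.Adj x y → s(x, y) ∈ p.edges) ∧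
      k < Nat.card ({x : V | x ∉ p.support} : Set V) ∧
      ∀ S0 : Set ({x : V | x ∉ p.support} : Set V), S0.ncard < k →
        ((G.induce ({x : V | x ∉ p.support} : Set V)).induce S0ᶜ).Connected := by
  refine whole_graph k q V G hG Γ hact R hR ?_ p hp
  intro x o
  have h1 : gsum Γ G x = (G.neighborSet x).ncard * gwgt Γ o := by
    unfold gsum
    rw [sum_congr rfl (g := fun _ => gwgt Γ o) (fun y _ => by
      rw [gwgt_eq_card, gwgt_eq_card]
      exact hst y o), sum_const, smul_eq_mul]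
    congr 1
    rw [← Set.ncard_coe_finset]
    congr 1
    ext y
    simp
  rw [h1]
  exact Nat.mul_le_mul_right _ (hdeg x)

/-- all vertex-transitive graphs of large degree -/
theorem vertex_transitive_case (k : ℕ) (V : Type) [Fintype V] (G : SimpleGraph V)
    (hG : G.Connected) (htr : ∀ x y : V, ∃ φ : G ≃g G, φ x = y)
    (hdeg : ∀ x : V, 112000000 * (k + 40) ≤ (G.neighborSet x).ncard)
    {v w : V} (p : G.Walk v w) (hp : p.length = G.dist v w) :
    p.IsPath ∧
      (∀ x ∈ p.support, ∀ y ∈ p.support, G.Adj x y → s(x, y) ∈ p.edges) ∧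
      k < Nat.card ({x : V | x ∉ p.support} : Set V) ∧
      ∀ S0 : Set ({x : V | x ∉ p.support} : Set V), S0.ncard < k →
        ((G.induce ({x : V | x ∉ p.support} : Set V)).induce S0ᶜ).Connected := by
  have := finite_aut (G := G)
  have := Fintype.ofFinite (G ≃g G)
  let μ : MulAction (G ≃g G) V :=
    { smul := fun g x => g x
      one_smul := fun _ => rfl
      mul_smul := fun _ _ _ => rfl }
  have hact : ∀ (g : G ≃g G) (x y : V), G.Adj x y → G.Adj (g • x) (g • y) :=
    fun g x y h => g.map_adj_iff.mpr h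
  refine equal_orbits_case k 1 V G hG (G ≃g G) hact (fun _ => v) ?_ ?_ ?_ p hp
  · intro x
    obtain ⟨φ, h⟩ := htr v x
    exact ⟨0, φ, h⟩
  · intro x y
    obtain ⟨φ, h⟩ := htr x y
    rw [← gwgt_eq_card, ← gwgt_eq_card]
    exact (gwgt_eq (G ≃g G) ((mem_gorb (G ≃g G)).mpr ⟨φ, h⟩)).symm
  · intro x
    have h1 := hdeg x
    have h2 : 112000000 * 1 ^ 9 * (k + 40 * 1 ^ 2) = 112000000 * (k + 40) := by norm_num
    rw [h2]
    exact h1

/-- all edge-transitive graphs of large minimum degree -/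
theorem edge_transitive_case' (k : ℕ) (V : Type) [Fintype V] (G : SimpleGraph V)
    (hG : G.Connected)
    (htr : ∀ x y x' y' : V, G.Adj x y → G.Adj x' y' →
      ∃ φ : G ≃g G, (φ x = x' ∧ φ y = y') ∨ (φ x = y' ∧ φ y = x'))
    (hdeg : ∀ x : V, 112000000 * 2 ^ 9 * (k + 160) ≤ (G.neighborSet x).ncard)
    {v w : V} (p : G.Walk v w) (hp : p.length = G.dist v w) :
    p.IsPath ∧
      (∀ x ∈ p.support, ∀ y ∈ p.support, G.Adj x y → s(x, y) ∈ p.edges) ∧
      k < Nat.card ({x : V | x ∉ p.support} : Set V) ∧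
      ∀ S0 : Set ({x : V | x ∉ p.support} : Set V), S0.ncard < k →
        ((G.induce ({x : V | x ∉ p.support} : Set V)).induce S0ᶜ).Connected := by
  have := finite_aut (G := G)
  have := Fintype.ofFinite (G ≃g G)
  let μ : MulAction (G ≃g G) V :=
    { smul := fun g x => g x
      one_smul := fun _ => rfl
      mul_smul := fun _ _ _ => rfl }
  have hact : ∀ (g : G ≃g G) (x y : V), G.Adj x y → G.Adj (g • x) (g • y) :=
    fun g x y h => g.map_adj_iff.mpr h
  have hnb : ∀ x : V, ∃ y, G.Adj x y := by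
    intro x
    have h1 := hdeg x
    have h2 : 0 < (G.neighborSet x).ncard := by omega
    rw [Set.ncard_pos (Set.toFinite _)] at h2
    exact h2
  obtain ⟨y0, hy0⟩ := hnb v
  refine whole_graph k 2 V G hG (G ≃g G) hact (fun i => if i = 0 then v else y0) ?_ ?_ p hp
  · intro x
    obtain ⟨y, hy⟩ := hnb x
    obtain ⟨φ, h⟩ := htr v y0 x y hy0 hy
    rcases h with h | h
    · exact ⟨0, φ, h.1⟩
    · exact ⟨1, φ, h.2⟩
  · intro x o
    -- all neighbours of a vertex are in one orbit
    have horb : ∀ x y z : V, G.Adj x y → G.Adj x z → z ∈ gorb (G ≃g G) y := by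
      intro x y z hxy hxz
      obtain ⟨φ, h⟩ := htr x y x z hxy hxz
      rcases h with h | h
      · exact (mem_gorb (G ≃g G)).mpr ⟨φ, h.2⟩
      · refine (mem_gorb (G ≃g G)).mpr ⟨φ * φ, ?_⟩
        change φ (φ y) = z
        rw [h.2, h.1]
    have hdg : ∀ x y : V, G.Adj x y → gdg (G ≃g G) G x y = (G.neighborSet x).ncard := by
      intro x y hxy
      rw [gdg_ncard]
      congr 1
      ext z
      constructor
      · intro h
        exact h.1
      · intro h
        exact ⟨h, (mem_gorb (G ≃g G)).mp (horb x y z hxy h)⟩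
    have hgs : ∀ x y : V, G.Adj x y → gsum (G ≃g G) G x =
        (G.neighborSet x).ncard * gwgt (G ≃g G) y := by
      intro x y hxy
      unfold gsum
      rw [sum_congr rfl (g := fun _ => gwgt (G ≃g G) y) (fun z hz =>
        gwgt_eq (G ≃g G) (horb x y z hxy (mem_filter.mp hz).2)), sum_const, smul_eq_mul]
      congr 1
      rw [← Set.ncard_coe_finset]
      congr 1
      ext y
      simp
    obtain ⟨y, hxy⟩ := hnb x
    -- every vertex is in the orbit of `x` or of `y`
    obtain ⟨o', ho'⟩ := hnb o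
    have h4 : 112000000 * 2 ^ 9 * (k + 40 * 2 ^ 2) = 112000000 * 2 ^ 9 * (k + 160) := by norm_num
    rw [h4]
    obtain ⟨φ, h⟩ := htr x y o o' hxy ho'
    rcases h with h | h
    · have h5 : gwgt (G ≃g G) o = gwgt (G ≃g G) x :=
        gwgt_eq (G ≃g G) ((mem_gorb (G ≃g G)).mpr ⟨φ, h.1⟩)
      rw [hgs x y hxy, h5, ← hdg x y hxy, gdg_wgt (G ≃g G) hact x y, hdg y x hxy.symm]
      exact Nat.mul_le_mul_right _ (hdeg y)
    · have h5 : gwgt (G ≃g G) o = gwgt (G ≃g G) y :=
        gwgt_eq (G ≃g G) ((mem_gorb (G ≃g G)).mpr ⟨φ, h.2⟩)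
      rw [hgs x y hxy, h5]
      exact Nat.mul_le_mul_right _ (hdeg x)

end Pool.Agent.VG86
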