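import Pool.Agent.VG86.WOrb
import Pool.Agent.VG86.CoreGen

/-!
# Sparse sets do not separate graphs with few orbits: the weighted version
-/

set_option autoImplicit false

namespace Pool.Agent.VG86

open Finset
open scoped Classical

/-- a sparse set does not separate a graph with few orbits -/
theorem gsparse_conn {W : Type} [Fintype W] {H : SimpleGraph W} (Γ : Type) [Group Γ] [Fintype Γ]
    [MulAction Γ W] (hact : ∀ (g : Γ) (x y : W), H.Adj x y → H.Adj (g • x) (g • y)) (k q : ℕ)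
    (hH : H.Connected) (R : Fin q → W) (hR : ∀ x, ∃ i, ∃ g : Γ, g • (R i) = x)
    (hrich : ∀ x : W, ∃ m ≤ q, ∃ z : ℕ → W, z 0 = x ∧
      (∀ i < m, k + 3 ≤ gdg Γ H (z i) (z (i + 1))) ∧
      ∀ o : W, 112000000 * q ^ 9 * (k + 40 * q ^ 2) * gwgt Γ o ≤ gsum Γ H (z m))
    (F : Set W) (hF : ∀ (a : W) (ρ : ℕ) (U : Finset W), (∀ y ∈ U, y ∈ F ∧ H.dist a y ≤ ρ) →
      U.card ≤ 2 * ρ + k) :
    ∀ x y, x ∉ F → y ∉ F → Conn H F x y := by
  intro x0 y0 hx0 hy0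
  obtain ⟨o, -, hmax'⟩ := exists_max_image univ (fun z => gwgt Γ z) ⟨x0, mem_univ x0⟩
  have hmax : ∀ z : W, gwgt Γ z ≤ gwgt Γ o := fun z => hmax' z (mem_univ z)
  have HH := gmhomog Γ hH hact o hmax
  have hpos := gwgt_pos Γ o
  have hq : 1 ≤ q := by
    obtain ⟨i, -⟩ := hR x0
    have := i.2
    omega
  obtain ⟨D, hD⟩ : ∃ D, D = 112000000 * q ^ 9 * (k + 40 * q ^ 2) := ⟨_, rfl⟩
  rw [← hD] at hrich
  have hqq : 1 ≤ q ^ 2 := Nat.one_le_pow _ _ hq
  have hD1 : 14000 * q ^ 4 * (40 * q ^ 2 * (40 * q ^ 2 + k)) + (2 + k) ≤ D := by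
    have h1 : q ^ 6 ≤ q ^ 9 := Nat.pow_le_pow_right hq (by omega)
    have h2 : 1 ≤ q ^ 9 := Nat.one_le_pow _ _ hq
    have h3 : 2 + k ≤ q ^ 9 * (k + 40 * q ^ 2) := by
      calc 2 + k ≤ 1 * (k + 40 * q ^ 2) := by omega
        _ ≤ q ^ 9 * (k + 40 * q ^ 2) := Nat.mul_le_mul_right _ h2
    have h4 : 14000 * q ^ 4 * (40 * q ^ 2 * (40 * q ^ 2 + k)) ≤
        560000 * (q ^ 9 * (k + 40 * q ^ 2)) := by
      calc 14000 * q ^ 4 * (40 * q ^ 2 * (40 * q ^ 2 + k))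
          = 560000 * (q ^ 6 * (k + 40 * q ^ 2)) := by ring
        _ ≤ 560000 * (q ^ 9 * (k + 40 * q ^ 2)) :=
            Nat.mul_le_mul_left _ (Nat.mul_le_mul_right _ h1)
    have h5 : D = 112000000 * (q ^ 9 * (k + 40 * q ^ 2)) := by
      rw [hD]; ring
    omega
  have hD2 : k + 3 ≤ D := by
    have h2 : 1 ≤ q ^ 4 := Nat.one_le_pow _ _ hq
    have h3 : 1 * (1 * (40 * q ^ 2 + k)) ≤ (14000 * q ^ 4) * (40 * q ^ 2 * (40 * q ^ 2 + k)) :=
      Nat.mul_le_mul (by omega) (Nat.mul_le_mul_right _ (by omega))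
    omega
  obtain ⟨F', hF'⟩ : ∃ F' : Finset W, ∀ x, x ∈ F' ↔ x ∈ F := by
    refine ⟨(Set.toFinite F).toFinset, fun x => ?_⟩
    rw [Set.Finite.mem_toFinset]
  have hsp : ∀ x ρ, 1 ≤ ρ → (F' ∩ ball H x ρ).card ≤ 2 * ρ + k := by
    intro x ρ _
    refine hF x ρ _ ?_
    intro y hy
    rw [mem_inter, hF', mem_ball] at hy
    exact hy
  have hout : ∀ x : W, ∃ s, H.Adj x s ∧ s ∉ F := by
    intro x
    by_contra hno
    push Not at hno
    obtain ⟨m, hm, z, rfl, hz, hr⟩ := hrich x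
    have h4 := hsp (z 0) 1 (le_refl _)
    rcases Nat.eq_zero_or_pos m with rfl | hmpos
    · have h1 := hr o
      have h2 : gsum Γ H (z 0) ≤ gwgt Γ o * (F' ∩ ball H (z 0) 1).card := by
        calc gsum Γ H (z 0) ≤ ∑ y ∈ F' ∩ ball H (z 0) 1, gwgt Γ y := by
              refine sum_le_sum_of_subset ?_
              intro y' hy'
              rw [mem_filter] at hy'
              rw [mem_inter, mem_ball, hF']
              exact ⟨hno y' hy'.2, by rw [SimpleGraph.dist_eq_one_iff_adj.mpr hy'.2]⟩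
          _ ≤ ∑ _y ∈ F' ∩ ball H (z 0) 1, gwgt Γ o := sum_le_sum fun y _ => hmax y
          _ = gwgt Γ o * (F' ∩ ball H (z 0) 1).card := by rw [sum_const, smul_eq_mul, mul_comm]
      have h3 : gwgt Γ o * D ≤ gwgt Γ o * (2 * 1 + k) := by
        calc gwgt Γ o * D = D * gwgt Γ o := mul_comm _ _
          _ ≤ gsum Γ H (z 0) := h1
          _ ≤ _ := h2
          _ ≤ _ := Nat.mul_le_mul_left _ h4
      have h5 := Nat.le_of_mul_le_mul_left h3 hpos
      omega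
    · have h1 := hz 0 hmpos
      have h2 : univ.filter (fun y' => H.Adj (z 0) y' ∧ y' ∈ gorb Γ (z (0 + 1))) ⊆
          F' ∩ ball H (z 0) 1 := by
        intro y' hy'
        rw [mem_filter] at hy'
        rw [mem_inter, mem_ball, hF']
        exact ⟨hno y' hy'.2.1, by rw [SimpleGraph.dist_eq_one_iff_adj.mpr hy'.2.1]⟩
      have h3 := card_le_card h2
      have h5 : (univ.filter (fun y' => H.Adj (z 0) y' ∧ y' ∈ gorb Γ (z (0 + 1)))).card =
        gdg Γ H (z 0) (z (0 + 1)) := rfl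
      omega
  refine conn_of_local hH hout ?_ hx0 hy0
  intro a b ha hb hab
  by_contra hnc
  obtain ⟨A, hA⟩ : ∃ A : Finset W, ∀ x, x ∈ A ↔ x ∉ F ∧ Conn H F a x := by
    refine ⟨(Set.toFinite {x | x ∉ F ∧ Conn H F a x}).toFinset, fun x => ?_⟩
    rw [Set.Finite.mem_toFinset]
    rfl
  obtain ⟨B, hB⟩ : ∃ B : Finset W, ∀ x, x ∈ B ↔ x ∉ F ∧ ¬ Conn H F a x := by
    refine ⟨(Set.toFinite {x | x ∉ F ∧ ¬ Conn H F a x}).toFinset, fun x => ?_⟩
    rw [Set.Finite.mem_toFinset]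
    rfl
  have haA : a ∈ A := (hA a).mpr ⟨ha, Conn.refl a⟩
  have hbB : b ∈ B := (hB b).mpr ⟨hb, hnc⟩
  have hAc : ∀ x ∈ A, ∀ y, H.Adj x y → y ∉ A → y ∈ F' := by
    intro x hx y hxy hy
    rw [hA] at hx hy
    rw [hF']
    by_contra hyF
    exact hy ⟨hyF, hx.2.tail ⟨hxy, hx.1, hyF⟩⟩
  have hBc : ∀ x ∈ B, ∀ y, H.Adj x y → y ∉ B → y ∈ F' := by
    intro x hx y hxy hy
    rw [hB] at hx hy
    rw [hF']
    by_contra hyF
    refine hy ⟨hyF, fun hc => hx.2 (hc.tail ⟨hxy.symm, hyF, hx.1⟩)⟩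
  have hABd : ∀ x ∈ A, x ∉ B := by
    intro x hx hx'
    rw [hA] at hx
    rw [hB] at hx'
    exact hx'.2 hx.2
  have hcmp : ∀ (X : Finset W), (∀ x ∈ X, ∀ y, H.Adj x y → y ∉ X → y ∈ F') → ∀ (x : W) (ρ : ℕ),
      ∑ y ∈ X ∩ ball H x ρ, gwgt Γ y ≤
        q * (gwgt Γ o * (gorb Γ o ∩ (X ∩ ball H x (ρ + (q - 1)))).card +
          gwgt Γ o * ((q - 1) * (2 * (ρ + (q - 1)) + k))) := by
    intro X hX x ρ
    refine (gcompare Γ hH hact F' X x hX R hR o hmax ρ).trans ?_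
    refine Nat.mul_le_mul_left _ (Nat.add_le_add_left (Nat.mul_le_mul_left _ ?_) _)
    rcases Nat.eq_zero_or_pos (q - 1) with h0 | h0
    · rw [h0]
      simp
    · exact Nat.mul_le_mul_left _ (hsp x _ (by omega))
  have hbs : ∀ (X : Finset W), (∀ x ∈ X, ∀ y, H.Adj x y → y ∉ X → y ∈ F') → ∀ x ∈ X,
      gwgt Γ o * (14000 * q ^ 4 * (40 * q ^ 2 * (40 * q ^ 2 + k))) ≤
        ∑ y ∈ X ∩ ball H x (q + 1), gwgt Γ y := by
    intro X hX x hx
    obtain ⟨m, hm, z, rfl, hz, hr⟩ := hrich x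
    have h1 := gbase Γ hH hact F' X k hX hsp z m q D (gwgt Γ o) hm hmax hz (hr o) hx
    have h2 : gwgt Γ o * (14000 * q ^ 4 * (40 * q ^ 2 * (40 * q ^ 2 + k))) +
        gwgt Γ o * (2 + k) ≤ gwgt Γ o * D := by
      rw [← mul_add]
      exact Nat.mul_le_mul_left _ hD1
    omega
  have hdeg : D ≤ q * (gorb Γ o ∩ ball H o (2 * q)).card := by
    obtain ⟨m, hm, z, hz0, hz, hr⟩ := hrich o
    obtain ⟨y, h1⟩ := gbase0 Γ hH hact ∅ univ k (fun x _ y _ hy => absurd (mem_univ y) hy)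
      (fun x ρ _ => by simp) z m q D (gwgt Γ o) hm hmax hz (hr o) (mem_univ _)
    rw [hz0] at h1
    have h2 := gcompare Γ hH hact ∅ univ o (fun x _ y _ hy => absurd (mem_univ y) hy) R hR o hmax
      (q + 1)
    have h3 : q + 1 + (q - 1) = 2 * q := by omega
    rw [h3] at h2
    rw [empty_inter, card_empty, mul_zero, add_zero] at h1
    rw [empty_inter, card_empty, mul_zero, mul_zero, add_zero, univ_inter, univ_inter] at h2
    rw [univ_inter] at h1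
    have h4 : gwgt Γ o * D ≤ gwgt Γ o * (q * (gorb Γ o ∩ ball H o (2 * q)).card) := by
      refine (h1.trans h2).trans (le_of_eq ?_)
      ring
    exact Nat.le_of_mul_le_mul_left h4 hpos
  refine HH.wno_cut F' A B k q (q - 1) (2 * q) (q + 1) (by omega) (by omega) (by omega) hAc hBc
    hABd hsp hab (hcmp A hAc a) (hcmp B hBc b) (hbs A hAc a haA) (hbs B hBc b hbB) ?_
  refine Nat.le_of_mul_le_mul_left (le_trans (le_of_eq ?_) hdeg) hq
  rw [hD]
  ring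

theorem core_weighted {V : Type} [Fintype V] {G : SimpleGraph V} (k q : ℕ) (W : Set V)
    (H : SimpleGraph W) (hHG : ∀ x y : W, H.Adj x y → G.Adj x y) (hH : H.Connected)
    (Γ : Type) [Group Γ] [Finite Γ] [MulAction Γ W]
    (hact : ∀ (g : Γ) (x y : W), H.Adj x y → H.Adj (g • x) (g • y))
    (R : Fin q → W) (hR : ∀ x : W, ∃ i, ∃ g : Γ, g • R i = x)
    (hdeg : ∀ x : W, ∃ m ≤ q, ∃ z : ℕ → W, z 0 = x ∧
      (∀ i < m, k + 3 ≤ ({y : W | H.Adj (z i) y ∧ ∃ g : Γ, g • z (i + 1) = y} : Set W).ncard) ∧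
      ∀ o : W, 112000000 * q ^ 9 * (k + 40 * q ^ 2) * Nat.card {g : Γ // g • o = o} ≤
        Nat.card {p : W × Γ // H.Adj (z m) p.1 ∧ p.2 • p.1 = p.1})
    (hdom : ∀ z : V, z ∉ W → k + 3 ≤ ({y : V | y ∈ W ∧ G.Adj z y} : Set V).ncard) :
    G.Connected ∧ ∀ {v w : V} (p : G.Walk v w), p.length = G.dist v w →
    p.IsPath ∧
      (∀ x ∈ p.support, ∀ y ∈ p.support, G.Adj x y → s(x, y) ∈ p.edges) ∧
      k < Nat.card ({x : V | x ∉ p.support} : Set V) ∧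
      ∀ S0 : Set ({x : V | x ∉ p.support} : Set V), S0.ncard < k →
        ((G.induce ({x : V | x ∉ p.support} : Set V)).induce S0ᶜ).Connected := by
  have := Fintype.ofFinite Γ
  have hdeg' : ∀ x : W, ∃ m ≤ q, ∃ z : ℕ → W, z 0 = x ∧
      (∀ i < m, k + 3 ≤ gdg Γ H (z i) (z (i + 1))) ∧
      ∀ o : W, 112000000 * q ^ 9 * (k + 40 * q ^ 2) * gwgt Γ o ≤ gsum Γ H (z m) := by
    intro x
    obtain ⟨m, hm, z, hz0, hz, hr⟩ := hdeg x
    refine ⟨m, hm, z, hz0, fun i hi => ?_, fun o => ?_⟩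
    · rw [gdg_ncard]
      exact hz i hi
    · rw [gwgt_eq_card, gsum_eq]
      exact hr o
  obtain ⟨x0⟩ := hH.nonempty
  obtain ⟨o, -, hmax'⟩ := exists_max_image univ (fun z => gwgt Γ z) ⟨x0, mem_univ x0⟩
  have hmax : ∀ z : W, gwgt Γ z ≤ gwgt Γ o := fun z => hmax' z (mem_univ z)
  have hq : 1 ≤ q := by
    obtain ⟨i, -⟩ := hR x0
    have := i.2
    omega
  obtain ⟨m, -, z, -, -, hr⟩ := hdeg' x0
  have hw0 : k + 4 ≤ (H.neighborSet (z m)).ncard := by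
    have h1 := hr o
    have h2 : gsum Γ H (z m) ≤ gwgt Γ o * (univ.filter (fun y => H.Adj (z m) y)).card := by
      calc gsum Γ H (z m) ≤ ∑ _y ∈ univ.filter (fun y => H.Adj (z m) y), gwgt Γ o :=
            sum_le_sum fun y _ => hmax y
        _ = _ := by rw [sum_const, smul_eq_mul, mul_comm]
    have h3 : gwgt Γ o * (112000000 * q ^ 9 * (k + 40 * q ^ 2)) ≤
        gwgt Γ o * (univ.filter (fun y => H.Adj (z m) y)).card := by
      rw [mul_comm]
      exact h1.trans h2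
    have h4 := Nat.le_of_mul_le_mul_left h3 (gwgt_pos Γ o)
    have h5 : (H.neighborSet (z m)).ncard = (univ.filter (fun y => H.Adj (z m) y)).card := by
      rw [← Set.ncard_coe_finset]
      congr 1
      ext y
      simp
    have h6 : 1 ≤ q ^ 9 := Nat.one_le_pow _ _ hq
    have h7 : 1 ≤ q ^ 2 := Nat.one_le_pow _ _ hq
    have h8 : 1 * (k + 40 * 1) ≤ 112000000 * q ^ 9 * (k + 40 * q ^ 2) :=
      Nat.mul_le_mul (by omega) (by omega)
    omega
  refine core_of_sparse k W H hHG hH (z m) hw0 ?_ hdom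
  intro F hF
  exact gsparse_conn Γ hact k q hH R hR hdeg' F hF

end Pool.Agent.VG86
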