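import Pool.Agent.VG86.MIso

/-!
# Growth inside of a component of a graph with several orbits, and the contradiction
-/

set_option autoImplicit false

namespace Pool.Agent.VG86

open Finset
open scoped Classical

variable {V Ψ : Type} [Fintype V] [Fintype Ψ]
variable {G : SimpleGraph V} {o : V} {act : Ψ → V → V} {U : Finset V} {wt : V → ℕ} {h : ℕ}

theorem wstep_arith {K1 k ρ t c s h M M' M0 : ℕ} (hh : 0 < h) (hK : 2 ≤ K1)
    (hs : s ≤ c) (hρ : 40 * c ≤ ρ) (hρ40 : 40 ≤ ρ) (ht : 10 * (c * t) ≤ ρ + 10 * c)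
    (ht5 : 5 * s ≤ 2 * t)
    (h1 : h * (K1 * ((ρ - s) * (ρ - s + k))) ≤ M0) (h1' : h * (K1 * (ρ * (ρ + k))) ≤ M)
    (h2 : M0 ≤ c * (2 * t * ((M' - M) + h * (2 * (ρ + 1) + k)) + h * (s * (2 * ρ + k))))
    (hM : M ≤ M') :
    h * (K1 * ((ρ + 1) * (ρ + 1 + k))) ≤ M' := by
  by_contra hcon
  push Not at hcon
  obtain ⟨e, rfl⟩ : ∃ e, M' = M + e := ⟨M' - M, by omega⟩
  have h3 : M + e - M = e := by omega
  rw [h3] at h2
  have h4 : e ≤ h * (K1 * (2 * ρ + 1 + k)) := by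
    have h5 : h * (K1 * ((ρ + 1) * (ρ + 1 + k))) =
        h * (K1 * (ρ * (ρ + k))) + h * (K1 * (2 * ρ + 1 + k)) := by ring
    omega
  obtain ⟨σ, rfl⟩ : ∃ σ, ρ = σ + s := ⟨ρ - s, by omega⟩
  have h5 : σ + s - s = σ := by omega
  rw [h5] at h1
  obtain ⟨u, hu⟩ : ∃ u, u = c * t := ⟨_, rfl⟩
  have h8 : 8 * u ≤ σ + s := by
    rw [← hu] at ht
    omega
  have h5' : 5 * (s * (2 * (σ + s) + k)) ≤ 2 * t * (2 * (σ + s + 1) + k) := by
    calc 5 * (s * (2 * (σ + s) + k)) = (5 * s) * (2 * (σ + s) + k) := by ring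
      _ ≤ 2 * t * (2 * (σ + s + 1) + k) := Nat.mul_le_mul ht5 (by omega)
  -- combine
  have h6 : h * (5 * (K1 * (σ * (σ + k)))) ≤
      h * (2 * u * (5 * (K1 * (2 * (σ + s) + 1 + k)) + 6 * (2 * (σ + s + 1) + k))) := by
    calc h * (5 * (K1 * (σ * (σ + k)))) = 5 * (h * (K1 * (σ * (σ + k)))) := by ring
      _ ≤ 5 * M0 := Nat.mul_le_mul_left _ h1
      _ ≤ 5 * (c * (2 * t * (e + h * (2 * (σ + s + 1) + k)) + h * (s * (2 * (σ + s) + k)))) :=
          Nat.mul_le_mul_left _ h2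
      _ = c * (2 * t * (5 * e + 5 * (h * (2 * (σ + s + 1) + k))) +
            h * (5 * (s * (2 * (σ + s) + k)))) := by ring
      _ ≤ c * (2 * t * (5 * (h * (K1 * (2 * (σ + s) + 1 + k))) +
            5 * (h * (2 * (σ + s + 1) + k))) + h * (2 * t * (2 * (σ + s + 1) + k))) :=
          Nat.mul_le_mul_left _ (Nat.add_le_add (Nat.mul_le_mul_left _ (by omega))
            (Nat.mul_le_mul_left _ h5'))
      _ = h * (2 * u * (5 * (K1 * (2 * (σ + s) + 1 + k)) + 6 * (2 * (σ + s + 1) + k))) := by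
          rw [hu]
          ring
  have h7 := Nat.le_of_mul_le_mul_left h6 hh
  obtain ⟨Z, hZ⟩ : ∃ Z, Z = 5 * (K1 * (2 * (σ + s) + 1 + k)) + 6 * (2 * (σ + s + 1) + k) :=
    ⟨_, rfl⟩
  rw [← hZ] at h7
  have h9 : 20 * (K1 * (σ * (σ + k))) ≤ (σ + s) * Z := by
    calc 20 * (K1 * (σ * (σ + k))) = 4 * (5 * (K1 * (σ * (σ + k)))) := by ring
      _ ≤ 4 * (2 * u * Z) := Nat.mul_le_mul_left _ h7
      _ = (8 * u) * Z := by ring
      _ ≤ (σ + s) * Z := Nat.mul_le_mul_right _ h8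
  have h10 : 39 * (σ + s) ≤ 40 * σ := by omega
  have h11 : 39 * (σ + s + k) ≤ 40 * (σ + k) := by omega
  have h12 : (σ + s) * (30420 * (K1 * (σ + s + k))) ≤ (σ + s) * (1600 * Z) := by
    calc (σ + s) * (30420 * (K1 * (σ + s + k)))
        = 20 * K1 * ((39 * (σ + s)) * (39 * (σ + s + k))) := by ring
      _ ≤ 20 * K1 * ((40 * σ) * (40 * (σ + k))) :=
          Nat.mul_le_mul_left _ (Nat.mul_le_mul h10 h11)
      _ = 1600 * (20 * (K1 * (σ * (σ + k)))) := by ring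
      _ ≤ 1600 * ((σ + s) * Z) := Nat.mul_le_mul_left _ h9
      _ = (σ + s) * (1600 * Z) := by ring
  have h13 := Nat.le_of_mul_le_mul_left h12 (by omega)
  have h14 : 2 * (2 * (σ + s + 1) + k) ≤ K1 * (2 * (σ + s + 1) + k) := Nat.mul_le_mul_right _ hK
  have h15 : 1600 * Z ≤ K1 * (25600 * (σ + s) + 17600 + 12800 * k) := by
    calc 1600 * Z = 8000 * (K1 * (2 * (σ + s) + 1 + k)) + 4800 * (2 * (2 * (σ + s + 1) + k)) := by
          rw [hZ]; ring
      _ ≤ 8000 * (K1 * (2 * (σ + s) + 1 + k)) + 4800 * (K1 * (2 * (σ + s + 1) + k)) := by omega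
      _ = K1 * (25600 * (σ + s) + 17600 + 12800 * k) := by ring
  have h16 : K1 * (30420 * (σ + s + k)) ≤ K1 * (25600 * (σ + s) + 17600 + 12800 * k) := by
    calc K1 * (30420 * (σ + s + k)) = 30420 * (K1 * (σ + s + k)) := by ring
      _ ≤ 1600 * Z := h13
      _ ≤ _ := h15
  have h17 := Nat.le_of_mul_le_mul_left h16 (by omega)
  omega

/-- growth inside of a union of components of `G - F` -/
theorem MHomog.wgrowth (H : MHomog G o act U wt h) (F A : Finset V) (k K1 r0 c s L t0 ρ1 : ℕ)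
    (hK : 2 ≤ K1) (hs : s + 1 ≤ c) (hL : 40 * (c * c) ≤ L) (hLt : 10 * (c * t0) ≤ L)
    (hρ1 : ρ1 + s ≤ L) {x : V}
    (hA : ∀ x ∈ A, ∀ y, G.Adj x y → y ∉ A → y ∈ F)
    (hF : ∀ x ρ, 1 ≤ ρ → (F ∩ ball G x ρ).card ≤ 2 * ρ + k)
    (hcmp : ∀ ρ, ∑ y ∈ A ∩ ball G x ρ, wt y ≤
      c * (h * (U ∩ (A ∩ ball G x (ρ + s))).card + h * (s * (2 * (ρ + s) + k))))
    (hb : ∀ t, t0 ≤ t → t < r0 → 200 * c ^ 2 * K1 * (t * (t + k)) ≤ (U ∩ ball G o t).card)
    (hbase : h * (K1 * (L * (L + k))) ≤ ∑ y ∈ A ∩ ball G x ρ1, wt y) :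
    ∀ ρ, ρ1 ≤ ρ → ρ ≤ r0 → h * (K1 * (ρ * (ρ + k))) ≤ ∑ y ∈ A ∩ ball G x ρ, wt y := by
  have hcpos : 1 ≤ c := by omega
  have hcc : c ≤ c * c := Nat.le_mul_of_pos_left _ hcpos
  have hUw : ∀ X : Finset V, h * (U ∩ X).card ≤ ∑ y ∈ X, wt y := by
    intro X
    calc h * (U ∩ X).card = ∑ y ∈ U ∩ X, wt y := by
          rw [sum_congr rfl (fun y hy => H.wtU y (mem_inter.mp hy).1), sum_const, smul_eq_mul,
            mul_comm]
      _ ≤ ∑ y ∈ X, wt y := sum_le_sum_of_subset (inter_subset_right)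
  have hmonoM : ∀ ρ ρ' : ℕ, ρ ≤ ρ' → ∑ y ∈ A ∩ ball G x ρ, wt y ≤ ∑ y ∈ A ∩ ball G x ρ', wt y := by
    intro ρ ρ' hρ
    exact sum_le_sum_of_subset (inter_subset_inter_left (ball_mono G x hρ))
  intro ρ
  induction ρ using Nat.strong_induction_on with
  | _ ρ' ih =>
    intro hlow hr
    rcases Nat.lt_or_ge L ρ' with h40 | h40
    · obtain ⟨ρ, rfl⟩ : ∃ ρ, ρ' = ρ + 1 := ⟨ρ' - 1, by omega⟩
      have h2 := ih ρ (by omega) (by omega) (by omega)
      have h2' := ih (ρ - s) (by omega) (by omega) (by omega)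
      have hmono := hmonoM ρ (ρ + 1) (by omega)
      by_cases hbig : h * (K1 * ((ρ + 1) * (ρ + 1 + k))) ≤ ∑ y ∈ A ∩ ball G x ρ, wt y
      · exact hbig.trans hmono
      push Not at hbig
      obtain ⟨t, ht1, ht2⟩ : ∃ t, ρ + 1 ≤ 10 * (c * t) ∧ 10 * (c * t) ≤ ρ + 10 * c := by
        refine ⟨(ρ + 10 * c) / (10 * c), ?_, ?_⟩
        · have h3 := Nat.lt_mul_div_succ (ρ + 10 * c) (b := 10 * c) (by omega)
          have h4 : 10 * c * ((ρ + 10 * c) / (10 * c) + 1) =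
              10 * (c * ((ρ + 10 * c) / (10 * c))) + 10 * c := by ring
          omega
        · have h3 := Nat.mul_div_le (ρ + 10 * c) (10 * c)
          have h4 : 10 * c * ((ρ + 10 * c) / (10 * c)) =
              10 * (c * ((ρ + 10 * c) / (10 * c))) := by ring
          omega
      have htc : t ≤ c * t := Nat.le_mul_of_pos_left _ (by omega)
      have ht3 : t0 ≤ t := by
        by_contra hlt
        have h3 : c * t ≤ c * t0 := Nat.mul_le_mul_left _ (by omega)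
        omega
      have ht5 : 5 * s ≤ 2 * t := by
        by_contra hlt
        have h3 : c * t ≤ c * (4 * c) := Nat.mul_le_mul_left _ (by omega)
        have h3' : c * (4 * c) = 4 * (c * c) := by ring
        omega
      have ht4 : t < r0 := by omega
      obtain ⟨X, hX⟩ : ∃ X, X = A ∩ ball G x ρ := ⟨_, rfl⟩
      have h3 : 2 * (U ∩ X).card ≤ (U ∩ ball G o t).card := by
        have h4 := hb t ht3 ht4
        have h5 : (ρ + 1) * (ρ + 1 + k) ≤ 100 * c ^ 2 * (t * (t + k)) := by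
          have h6 : ρ + 1 + k ≤ 10 * (c * t) + 10 * (c * k) := by
            have h7 : k ≤ c * k := Nat.le_mul_of_pos_left _ (by omega)
            omega
          calc (ρ + 1) * (ρ + 1 + k) ≤ (10 * (c * t)) * (10 * (c * t) + 10 * (c * k)) :=
                Nat.mul_le_mul ht1 h6
            _ = 100 * c ^ 2 * (t * (t + k)) := by ring
        have h6 : 2 * (K1 * ((ρ + 1) * (ρ + 1 + k))) ≤ 200 * c ^ 2 * K1 * (t * (t + k)) := by
          calc 2 * (K1 * ((ρ + 1) * (ρ + 1 + k))) ≤ 2 * (K1 * (100 * c ^ 2 * (t * (t + k)))) :=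
                Nat.mul_le_mul_left _ (Nat.mul_le_mul_left _ h5)
            _ = 200 * c ^ 2 * K1 * (t * (t + k)) := by ring
        have h7 : (U ∩ X).card < K1 * ((ρ + 1) * (ρ + 1 + k)) := by
          have h8 := hUw X
          rw [hX] at h8 ⊢
          exact Nat.lt_of_mul_lt_mul_left (lt_of_le_of_lt h8 hbig)
        omega
      have h4 := H.iso X
        ((A ∩ (ball G x (ρ + 1) \ ball G x ρ)) ∪ (F ∩ ball G x (ρ + 1))) t h3 (by
          intro z hz y hzy hy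
          rw [hX, mem_inter, mem_ball] at hz
          rw [hX] at hy
          have h5 : y ∈ ball G x (ρ + 1) := by
            rw [mem_ball]
            have h6 := H.conn.dist_triangle (u := x) (v := z) (w := y)
            rw [SimpleGraph.dist_eq_one_iff_adj.mpr hzy] at h6
            omega
          rw [mem_union, mem_inter, mem_inter, mem_sdiff]
          by_cases hyA : y ∈ A
          · left
            refine ⟨hyA, h5, fun h6 => hy ?_⟩
            rw [mem_inter]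
            exact ⟨hyA, h6⟩
          · exact Or.inr ⟨hA z hz.1 y hzy hyA, h5⟩)
      have h5 : ∑ y ∈ (A ∩ (ball G x (ρ + 1) \ ball G x ρ)) ∪ (F ∩ ball G x (ρ + 1)), wt y ≤
          ((∑ y ∈ A ∩ ball G x (ρ + 1), wt y) - (∑ y ∈ A ∩ ball G x ρ, wt y)) +
            h * (2 * (ρ + 1) + k) := by
        have h6 : ∑ y ∈ (A ∩ (ball G x (ρ + 1) \ ball G x ρ)) ∪ (F ∩ ball G x (ρ + 1)), wt y ≤
            ∑ y ∈ A ∩ (ball G x (ρ + 1) \ ball G x ρ), wt y +
              ∑ y ∈ F ∩ ball G x (ρ + 1), wt y := by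
          have h7 := sum_union_inter (s₁ := A ∩ (ball G x (ρ + 1) \ ball G x ρ))
            (s₂ := F ∩ ball G x (ρ + 1)) (f := wt)
          omega
        have h7 : ∑ y ∈ F ∩ ball G x (ρ + 1), wt y ≤ h * (2 * (ρ + 1) + k) := by
          calc ∑ y ∈ F ∩ ball G x (ρ + 1), wt y ≤ ∑ _y ∈ F ∩ ball G x (ρ + 1), h :=
                sum_le_sum fun y _ => H.wt_le y
            _ = h * (F ∩ ball G x (ρ + 1)).card := by rw [sum_const, smul_eq_mul, mul_comm]
            _ ≤ h * (2 * (ρ + 1) + k) := Nat.mul_le_mul_left _ (hF x (ρ + 1) (by omega))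
        have h8 : ∑ y ∈ A ∩ (ball G x (ρ + 1) \ ball G x ρ), wt y +
            ∑ y ∈ A ∩ ball G x ρ, wt y ≤ ∑ y ∈ A ∩ ball G x (ρ + 1), wt y := by
          rw [← sum_union]
          · refine sum_le_sum_of_subset ?_
            intro y hy
            rw [mem_union, mem_inter, mem_inter, mem_sdiff] at hy
            rw [mem_inter]
            rcases hy with hy | hy
            · exact ⟨hy.1, hy.2.1⟩
            · exact ⟨hy.1, ball_mono G x (by omega) hy.2⟩
          · rw [disjoint_left]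
            intro y hy hy'
            rw [mem_inter, mem_sdiff] at hy
            rw [mem_inter] at hy'
            exact hy.2.2 hy'.2
        omega
      have h6 : ∑ y ∈ A ∩ ball G x (ρ - s), wt y ≤
          c * (2 * t * (((∑ y ∈ A ∩ ball G x (ρ + 1), wt y) - (∑ y ∈ A ∩ ball G x ρ, wt y)) +
            h * (2 * (ρ + 1) + k)) + h * (s * (2 * ρ + k))) := by
        have h7 := hcmp (ρ - s)
        have h8 : ρ - s + s = ρ := by omega
        rw [h8, ← hX] at h7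
        exact h7.trans (Nat.mul_le_mul_left _
          (Nat.add_le_add_right (h4.trans (Nat.mul_le_mul_left _ h5)) _))
      exact wstep_arith H.pos hK (by omega) (by omega) (by omega) ht2 ht5 h2' h2 h6 hmono
    · calc h * (K1 * (ρ' * (ρ' + k))) ≤ h * (K1 * (L * (L + k))) :=
            Nat.mul_le_mul_left _ (Nat.mul_le_mul_left _ (Nat.mul_le_mul (by omega) (by omega)))
        _ ≤ ∑ y ∈ A ∩ ball G x ρ1, wt y := hbase
        _ ≤ ∑ y ∈ A ∩ ball G x ρ', wt y := hmonoM _ _ hlow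

theorem wfinal_arith {k r c s α β b2 : ℕ} (hc : s + 1 ≤ c) (hr : 20 * c ^ 2 ≤ r)
    (hα : 14000 * c ^ 4 * ((r - s) * (r - s + k)) ≤ c * α + c * (s * (2 * r + k)))
    (hβ : 14000 * c ^ 4 * ((r - 3 - s) * (r - 3 - s + k)) ≤ c * β + c * (s * (2 * r + k)))
    (hb : b2 ≤ 200 * c ^ 2 * (14000 * c ^ 4) * ((2 * r + 1) * (2 * r + 1 + k)))
    (h : α * β ≤ 2 * r * b2 * (6 * r + k)) : False := by
  have hcpos : 1 ≤ c := by omega
  have hcc : c ≤ c ^ 2 := by
    calc c = c * 1 := by ring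
      _ ≤ c * c := Nat.mul_le_mul_left _ hcpos
      _ = c ^ 2 := by ring
  obtain ⟨P1, hP1⟩ : ∃ P1, P1 = (r - s) * (r - s + k) := ⟨_, rfl⟩
  obtain ⟨P2, hP2⟩ : ∃ P2, P2 = (r - 3 - s) * (r - 3 - s + k) := ⟨_, rfl⟩
  obtain ⟨X, hX⟩ : ∃ X, X = r * (r + k) := ⟨_, rfl⟩
  have hXpos : 0 < X := by
    rw [hX]
    exact Nat.mul_pos (by omega) (by omega)
  have hP1X : X ≤ 2 * P1 := by
    have h2 : 19 * r ≤ 20 * (r - s) := by omega
    have h3 : 19 * (r + k) ≤ 20 * (r - s + k) := by omega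
    have h4 : 361 * X ≤ 400 * P1 := by
      calc 361 * X = (19 * r) * (19 * (r + k)) := by rw [hX]; ring
        _ ≤ (20 * (r - s)) * (20 * (r - s + k)) := Nat.mul_le_mul h2 h3
        _ = 400 * P1 := by rw [hP1]; ring
    omega
  have hP2X : X ≤ 2 * P2 := by
    have h2 : 17 * r ≤ 20 * (r - 3 - s) := by omega
    have h3 : 17 * (r + k) ≤ 20 * (r - 3 - s + k) := by omega
    have h4 : 289 * X ≤ 400 * P2 := by
      calc 289 * X = (17 * r) * (17 * (r + k)) := by rw [hX]; ring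
        _ ≤ (20 * (r - 3 - s)) * (20 * (r - 3 - s + k)) := Nat.mul_le_mul h2 h3
        _ = 400 * P2 := by rw [hP2]; ring
    omega
  have h7 : 289 * (X * X) ≤ 400 * (P1 * P2) := by
    rcases Nat.lt_or_ge c 2 with h1 | h1
    · have hc1 : c = 1 := by omega
      have hs0 : s = 0 := by omega
      subst hc1 hs0
      have h2 : 17 * r ≤ 20 * (r - 3 - 0) := by omega
      have h3 : 17 * (r + k) ≤ 20 * (r - 3 - 0 + k) := by omega
      have h4 : 289 * X ≤ 400 * P2 := by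
        calc 289 * X = (17 * r) * (17 * (r + k)) := by rw [hX]; ring
          _ ≤ (20 * (r - 3 - 0)) * (20 * (r - 3 - 0 + k)) := Nat.mul_le_mul h2 h3
          _ = 400 * P2 := by rw [hP2]; ring
      have h5 : P1 = X := by
        rw [hP1, hX, Nat.sub_zero]
      calc 289 * (X * X) = X * (289 * X) := by ring
        _ ≤ X * (400 * P2) := Nat.mul_le_mul_left _ h4
        _ = 400 * (P1 * P2) := by rw [h5]; ring
    · have h2 : 19 * r ≤ 20 * (r - s) := by omega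
      have h3 : 19 * (r + k) ≤ 20 * (r - s + k) := by omega
      have h4 : 9 * r ≤ 10 * (r - 3 - s) := by omega
      have h5 : 9 * (r + k) ≤ 10 * (r - 3 - s + k) := by omega
      have h6 : 361 * X ≤ 400 * P1 := by
        calc 361 * X = (19 * r) * (19 * (r + k)) := by rw [hX]; ring
          _ ≤ (20 * (r - s)) * (20 * (r - s + k)) := Nat.mul_le_mul h2 h3
          _ = 400 * P1 := by rw [hP1]; ring
      have h8 : 81 * X ≤ 100 * P2 := by
        calc 81 * X = (9 * r) * (9 * (r + k)) := by rw [hX]; ring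
          _ ≤ (10 * (r - 3 - s)) * (10 * (r - 3 - s + k)) := Nat.mul_le_mul h4 h5
          _ = 100 * P2 := by rw [hP2]; ring
      have h9 : (361 * 81) * (X * X) ≤ 40000 * (P1 * P2) := by
        calc (361 * 81) * (X * X) = (361 * X) * (81 * X) := by ring
          _ ≤ (400 * P1) * (100 * P2) := Nat.mul_le_mul h6 h8
          _ = 40000 * (P1 * P2) := by ring
      omega
  rw [← hP1] at hα
  rw [← hP2] at hβ
  -- the error term
  have hE : c * (s * (2 * r + k)) * 2 ≤ X := by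
    calc c * (s * (2 * r + k)) * 2 ≤ c * (c * (2 * (r + k))) * 2 :=
          Nat.mul_le_mul_right _ (Nat.mul_le_mul_left _ (Nat.mul_le_mul (by omega) (by omega)))
      _ = (4 * c ^ 2) * (r + k) := by ring
      _ ≤ r * (r + k) := Nat.mul_le_mul_right _ (by omega)
      _ = X := hX.symm
  obtain ⟨E, hEdef⟩ : ∃ E, E = c * (s * (2 * r + k)) := ⟨_, rfl⟩
  rw [← hEdef] at hα hβ hE
  obtain ⟨K, hKdef⟩ : ∃ K, 14000 * c ^ 4 = K + 1 ∧ 13998 * c ^ 4 ≤ K - 1 ∧ 1 ≤ K := by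
    have h1 : 1 ≤ c ^ 4 := Nat.one_le_pow _ _ (by omega)
    exact ⟨14000 * c ^ 4 - 1, by omega, by omega, by omega⟩
  obtain ⟨hK1, hK2, hK3⟩ := hKdef
  have hα' : K * P1 ≤ c * α := by
    rw [hK1] at hα
    have h1 : (K + 1) * P1 = K * P1 + P1 := by ring
    omega
  have hβ' : K * P2 ≤ c * β := by
    rw [hK1] at hβ
    have h1 : (K + 1) * P2 = K * P2 + P2 := by ring
    omega
  have h8 : (K * K) * (P1 * P2) ≤ (K + 1) *
      (400 * c ^ 4 * (r * ((2 * r + 1) * (2 * r + 1 + k)) * (6 * r + k))) := by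
    calc (K * K) * (P1 * P2) = (K * P1) * (K * P2) := by ring
      _ ≤ (c * α) * (c * β) := Nat.mul_le_mul hα' hβ'
      _ = c ^ 2 * (α * β) := by ring
      _ ≤ c ^ 2 * (2 * r * b2 * (6 * r + k)) := Nat.mul_le_mul_left _ h
      _ ≤ c ^ 2 * (2 * r * (200 * c ^ 2 * (14000 * c ^ 4) * ((2 * r + 1) * (2 * r + 1 + k))) *
            (6 * r + k)) :=
          Nat.mul_le_mul_left _ (Nat.mul_le_mul_right _ (Nat.mul_le_mul_left _ hb))
      _ = (14000 * c ^ 4) *
            (400 * c ^ 4 * (r * ((2 * r + 1) * (2 * r + 1 + k)) * (6 * r + k))) := by ring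
      _ = _ := by rw [hK1]
  have h8' : (K + 1) * ((K - 1) * (P1 * P2)) ≤ (K + 1) *
      (400 * c ^ 4 * (r * ((2 * r + 1) * (2 * r + 1 + k)) * (6 * r + k))) := by
    have h1 : (K + 1) * ((K - 1) * (P1 * P2)) ≤ (K * K) * (P1 * P2) := by
      rw [← mul_assoc]
      refine Nat.mul_le_mul_right _ ?_
      obtain ⟨K', rfl⟩ : ∃ K', K = K' + 1 := ⟨K - 1, by omega⟩
      have h2 : K' + 1 - 1 = K' := by omega
      rw [h2]
      nlinarith
    exact h1.trans h8
  have h9 := Nat.le_of_mul_le_mul_left h8' (by omega)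
  have h10 : c ^ 4 * (13998 * (P1 * P2)) ≤
      c ^ 4 * (400 * (r * ((2 * r + 1) * (2 * r + 1 + k)) * (6 * r + k))) := by
    calc c ^ 4 * (13998 * (P1 * P2)) = (13998 * c ^ 4) * (P1 * P2) := by ring
      _ ≤ (K - 1) * (P1 * P2) := Nat.mul_le_mul_right _ hK2
      _ ≤ _ := h9
      _ = c ^ 4 * (400 * (r * ((2 * r + 1) * (2 * r + 1 + k)) * (6 * r + k))) := by ring
  have h11 := Nat.le_of_mul_le_mul_left h10 (Nat.pow_pos (by omega))
  have h12 : 20 * (2 * r + 1) ≤ 41 * r := by omega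
  have h13 : 20 * (2 * r + 1 + k) ≤ 41 * (r + k) := by omega
  have h14 : 6 * r + k ≤ 6 * (r + k) := by omega
  have h15 : 400 * ((2 * r + 1) * (2 * r + 1 + k)) ≤ 1681 * X := by
    calc 400 * ((2 * r + 1) * (2 * r + 1 + k))
        = (20 * (2 * r + 1)) * (20 * (2 * r + 1 + k)) := by ring
      _ ≤ (41 * r) * (41 * (r + k)) := Nat.mul_le_mul h12 h13
      _ = 1681 * X := by rw [hX]; ring
  have h16 : (X * X) * (13998 * 289) ≤ (X * X) * (400 * 1681 * 6) := by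
    calc (X * X) * (13998 * 289) = 13998 * (289 * (X * X)) := by ring
      _ ≤ 13998 * (400 * (P1 * P2)) := Nat.mul_le_mul_left _ h7
      _ = 400 * (13998 * (P1 * P2)) := by ring
      _ ≤ 400 * (400 * (r * ((2 * r + 1) * (2 * r + 1 + k)) * (6 * r + k))) :=
          Nat.mul_le_mul_left _ h11
      _ = (400 * ((2 * r + 1) * (2 * r + 1 + k))) * (400 * r * (6 * r + k)) := by ring
      _ ≤ (1681 * X) * (400 * r * (6 * (r + k))) :=
          Nat.mul_le_mul h15 (Nat.mul_le_mul_left _ h14)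
      _ = (1681 * X) * (400 * 6 * (r * (r + k))) := by ring
      _ = (X * X) * (400 * 1681 * 6) := by rw [← hX]; ring
  have h17 := Nat.le_of_mul_le_mul_left h16 (Nat.mul_pos hXpos hXpos)
  norm_num at h17

/-- a sparse set does not separate the graph -/
theorem MHomog.wno_cut (H : MHomog G o act U wt h) (F A B : Finset V) (k c s t0 ρ1 : ℕ)
    (hs : s + 1 ≤ c) (ht0 : t0 ≤ 4 * c) (hρ1 : ρ1 ≤ 16 * c)
    (hA : ∀ x ∈ A, ∀ y, G.Adj x y → y ∉ A → y ∈ F)
    (hB : ∀ x ∈ B, ∀ y, G.Adj x y → y ∉ B → y ∈ F)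
    (hAB : ∀ x ∈ A, x ∉ B)
    (hF : ∀ x ρ, 1 ≤ ρ → (F ∩ ball G x ρ).card ≤ 2 * ρ + k)
    {a b : V} (hab : G.dist a b ≤ 3)
    (hcmpA : ∀ ρ, ∑ y ∈ A ∩ ball G a ρ, wt y ≤
      c * (h * (U ∩ (A ∩ ball G a (ρ + s))).card + h * (s * (2 * (ρ + s) + k))))
    (hcmpB : ∀ ρ, ∑ y ∈ B ∩ ball G b ρ, wt y ≤
      c * (h * (U ∩ (B ∩ ball G b (ρ + s))).card + h * (s * (2 * (ρ + s) + k))))
    (hbaseA : h * (14000 * c ^ 4 * (40 * c ^ 2 * (40 * c ^ 2 + k))) ≤ ∑ y ∈ A ∩ ball G a ρ1, wt y)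
    (hbaseB : h * (14000 * c ^ 4 * (40 * c ^ 2 * (40 * c ^ 2 + k))) ≤ ∑ y ∈ B ∩ ball G b ρ1, wt y)
    (hdeg : 200 * c ^ 2 * (14000 * c ^ 4) * (40 * c ^ 2 * (40 * c ^ 2 + k)) ≤
      (U ∩ ball G o t0).card) : False := by
  obtain ⟨K0, hK0⟩ : ∃ K0, K0 = 200 * c ^ 2 * (14000 * c ^ 4) := ⟨_, rfl⟩
  have hcpos : 1 ≤ c := by omega
  have hcc : c ≤ c ^ 2 := by
    calc c = c * 1 := by ring
      _ ≤ c * c := Nat.mul_le_mul_left _ hcpos
      _ = c ^ 2 := by ring
  obtain ⟨L, hL⟩ : ∃ L, L = 40 * c ^ 2 := ⟨_, rfl⟩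
  rw [← hL] at hbaseA hbaseB hdeg
  rw [← hK0] at hdeg
  have hc2 : c * c = c ^ 2 := by ring
  have hL1 : 40 * (c * c) ≤ L := by omega
  have hL2 : 10 * (c * t0) ≤ L := by
    have h1 : c * t0 ≤ c * (4 * c) := Nat.mul_le_mul_left _ ht0
    have h2 : c * (4 * c) = 4 * c ^ 2 := by ring
    omega
  have hK1 : 2 ≤ 14000 * c ^ 4 := by
    have : 1 ≤ c ^ 4 := Nat.one_le_pow _ _ hcpos
    omega
  have hK0pos : 1 ≤ K0 := by
    rw [hK0]
    have h1 : 1 ≤ c ^ 2 := Nat.one_le_pow _ _ hcpos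
    have h2 : 1 ≤ c ^ 4 := Nat.one_le_pow _ _ hcpos
    exact Nat.mul_pos (by omega) (by omega)
  have hex : ∃ t, t0 ≤ t ∧ (U ∩ ball G o t).card < K0 * (t * (t + k)) := by
    refine ⟨Fintype.card V + t0 + 1, by omega, ?_⟩
    have h1 : (U ∩ ball G o (Fintype.card V + t0 + 1)).card ≤ Fintype.card V := card_le_univ _
    have h2 : Fintype.card V + t0 + 1 ≤
        K0 * ((Fintype.card V + t0 + 1) * (Fintype.card V + t0 + 1 + k)) := by
      have h3 : 1 ≤ K0 * (Fintype.card V + t0 + 1 + k) := Nat.mul_pos hK0pos (by omega)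
      calc Fintype.card V + t0 + 1 = (Fintype.card V + t0 + 1) * 1 := by ring
        _ ≤ (Fintype.card V + t0 + 1) * (K0 * (Fintype.card V + t0 + 1 + k)) :=
            Nat.mul_le_mul_left _ h3
        _ = _ := by ring
    omega
  obtain ⟨r0, ⟨hr1, hr0⟩, hmin⟩ : ∃ r0, (t0 ≤ r0 ∧
      (U ∩ ball G o r0).card < K0 * (r0 * (r0 + k))) ∧
      ∀ t < r0, ¬ (t0 ≤ t ∧ (U ∩ ball G o t).card < K0 * (t * (t + k))) :=
    ⟨Nat.find hex, Nat.find_spec hex, fun t ht => Nat.find_min hex ht⟩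
  have hb' : ∀ t, t0 ≤ t → t < r0 →
      200 * c ^ 2 * (14000 * c ^ 4) * (t * (t + k)) ≤ (U ∩ ball G o t).card := by
    intro t h1 h2
    rw [← hK0]
    by_contra h3
    exact hmin t h2 ⟨h1, by omega⟩
  have h40 : L < r0 := by
    by_contra hle
    have h1 : (U ∩ ball G o t0).card ≤ (U ∩ ball G o r0).card :=
      card_le_card (inter_subset_inter_left (ball_mono G o hr1))
    have h2 : r0 * (r0 + k) ≤ L * (L + k) := Nat.mul_le_mul (by omega) (by omega)
    have h3 : K0 * (r0 * (r0 + k)) ≤ K0 * (L * (L + k)) := Nat.mul_le_mul_left _ h2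
    omega
  obtain ⟨r, hr⟩ : ∃ r, r = r0 / 2 := ⟨_, rfl⟩
  have hr20 : 20 * c ^ 2 ≤ r := by omega
  have hrA := H.wgrowth F A k (14000 * c ^ 4) r0 c s L t0 ρ1 hK1 hs hL1 hL2 (by omega) hA hF
    hcmpA hb' hbaseA (r - s) (by omega) (by omega)
  have hrB := H.wgrowth F B k (14000 * c ^ 4) r0 c s L t0 ρ1 hK1 hs hL1 hL2 (by omega) hB hF
    hcmpB hb' hbaseB (r - 3 - s) (by omega) (by omega)
  have hrA' : 14000 * c ^ 4 * ((r - s) * (r - s + k)) ≤
      c * (U ∩ (A ∩ ball G a r)).card + c * (s * (2 * r + k)) := by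
    have h1 := hrA.trans (hcmpA (r - s))
    have h2 : r - s + s = r := by omega
    rw [h2] at h1
    have h3 : c * (h * (U ∩ (A ∩ ball G a r)).card + h * (s * (2 * r + k))) =
        h * (c * (U ∩ (A ∩ ball G a r)).card + c * (s * (2 * r + k))) := by
      ring
    rw [h3] at h1
    exact Nat.le_of_mul_le_mul_left h1 H.pos
  have hrB' : 14000 * c ^ 4 * ((r - 3 - s) * (r - 3 - s + k)) ≤
      c * (U ∩ (B ∩ ball G a r)).card + c * (s * (2 * r + k)) := by
    have h1 := hrB.trans (hcmpB (r - 3 - s))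
    have h2 : r - 3 - s + s = r - 3 := by omega
    rw [h2] at h1
    have h3 : c * (h * (U ∩ (B ∩ ball G b (r - 3))).card + h * (s * (2 * (r - 3) + k))) =
        h * (c * (U ∩ (B ∩ ball G b (r - 3))).card + c * (s * (2 * (r - 3) + k))) := by
      ring
    rw [h3] at h1
    refine (Nat.le_of_mul_le_mul_left h1 H.pos).trans (Nat.add_le_add
      (Nat.mul_le_mul_left _ (card_le_card ?_)) (Nat.mul_le_mul_left _
        (Nat.mul_le_mul_left _ (by omega))))
    refine inter_subset_inter_left (inter_subset_inter_left ?_)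
    intro y hy
    rw [mem_ball] at hy ⊢
    have h1 := H.conn.dist_triangle (u := a) (v := b) (w := y)
    omega
  have hP := H.poincare A B F a r hAB hA
  have hF3 := hF a (3 * r) (by omega)
  have hb2 : (U ∩ ball G o (2 * r)).card ≤
      200 * c ^ 2 * (14000 * c ^ 4) * ((2 * r + 1) * (2 * r + 1 + k)) := by
    rw [← hK0]
    calc (U ∩ ball G o (2 * r)).card ≤ (U ∩ ball G o r0).card :=
          card_le_card (inter_subset_inter_left (ball_mono G o (by omega)))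
      _ ≤ K0 * (r0 * (r0 + k)) := hr0.le
      _ ≤ K0 * ((2 * r + 1) * (2 * r + 1 + k)) :=
          Nat.mul_le_mul_left _ (Nat.mul_le_mul (by omega) (by omega))
  refine wfinal_arith (k := k) hs hr20 hrA' hrB' hb2 ?_
  calc (U ∩ (A ∩ ball G a r)).card * (U ∩ (B ∩ ball G a r)).card
      ≤ 2 * r * (U ∩ ball G o (2 * r)).card * (F ∩ ball G a (3 * r)).card := hP
    _ ≤ 2 * r * (U ∩ ball G o (2 * r)).card * (6 * r + k) :=
        Nat.mul_le_mul_left _ (by omega)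

end Pool.Agent.VG86
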