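import Pool.Agent.VG86.WGrowth

/-!
# Orbits of a finite group acting on a graph, weighted by the orders of the stabilisers
-/

set_option autoImplicit false

namespace Pool.Agent.VG86

open Finset
open scoped Classical

variable {V : Type} [Fintype V] {G : SimpleGraph V} (Γ : Type) [Group Γ] [MulAction Γ V]

/-- the orbit of `z` -/
noncomputable def gorb (z : V) : Finset V := univ.filter (fun y => ∃ g : Γ, g • z = y)

theorem mem_gorb {z y : V} : y ∈ gorb Γ z ↔ ∃ g : Γ, g • z = y := by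
  unfold gorb
  rw [mem_filter]
  exact ⟨fun h => h.2, fun h => ⟨mem_univ _, h⟩⟩

theorem gorb_self (z : V) : z ∈ gorb Γ z := (mem_gorb Γ).mpr ⟨1, one_smul _ _⟩

theorem gorb_symm {z y : V} (h : y ∈ gorb Γ z) : z ∈ gorb Γ y := by
  obtain ⟨g, rfl⟩ := (mem_gorb Γ).mp h
  exact (mem_gorb Γ).mpr ⟨g⁻¹, inv_smul_smul _ _⟩

theorem gorb_trans {x y z : V} (h : y ∈ gorb Γ x) (h' : z ∈ gorb Γ y) : z ∈ gorb Γ x := by
  obtain ⟨g, rfl⟩ := (mem_gorb Γ).mp h
  obtain ⟨g', rfl⟩ := (mem_gorb Γ).mp h'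
  exact (mem_gorb Γ).mpr ⟨g' * g, mul_smul _ _ _⟩

theorem gorb_eq {z y : V} (h : y ∈ gorb Γ z) : gorb Γ y = gorb Γ z := by
  ext x
  exact ⟨fun h' => gorb_trans Γ h h', fun h' => gorb_trans Γ (gorb_symm Γ h) h'⟩

theorem gorb_act {z y : V} (g : Γ) : g • y ∈ gorb Γ z ↔ y ∈ gorb Γ z := by
  constructor
  · intro h
    exact gorb_trans Γ h ((mem_gorb Γ).mpr ⟨g⁻¹, inv_smul_smul _ _⟩)
  · intro h
    exact gorb_trans Γ h ((mem_gorb Γ).mpr ⟨g, rfl⟩)

/-- the order of the stabiliser -/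
noncomputable def gwgt [Fintype Γ] (z : V) : ℕ := (univ.filter (fun g : Γ => g • z = z)).card

/-- number of neighbours of `z` in the orbit of `z'` -/
noncomputable def gdg (G : SimpleGraph V) (z z' : V) : ℕ :=
  (univ.filter (fun y => G.Adj z y ∧ y ∈ gorb Γ z')).card

omit [Fintype V] in
theorem adj_iff (hact : ∀ (g : Γ) (x y : V), G.Adj x y → G.Adj (g • x) (g • y)) (g : Γ) (x y : V) :
    G.Adj (g • x) (g • y) ↔ G.Adj x y := by
  constructor
  · intro h
    have h1 := hact g⁻¹ _ _ h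
    rw [inv_smul_smul, inv_smul_smul] at h1
    exact h1
  · exact hact g x y

omit [Fintype V] in
theorem gdist (hG : G.Connected) (hact : ∀ (g : Γ) (x y : V), G.Adj x y → G.Adj (g • x) (g • y))
    (g : Γ) (x y : V) : G.dist (g • x) (g • y) = G.dist x y := by
  have h1 : ∀ (g : Γ) (x y : V), G.dist (g • x) (g • y) ≤ G.dist x y := by
    intro g x y
    obtain ⟨p, hp⟩ := hG.exists_walk_length_eq_dist x y
    have h2 := SimpleGraph.dist_le (p.map (⟨fun x => g • x, fun {a b} h => hact g a b h⟩ : G →g G))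
    rw [SimpleGraph.Walk.length_map, hp] at h2
    exact h2
  refine le_antisymm (h1 g x y) ?_
  have h2 := h1 g⁻¹ (g • x) (g • y)
  rw [inv_smul_smul, inv_smul_smul] at h2
  exact h2

theorem gdg_act (hact : ∀ (g : Γ) (x y : V), G.Adj x y → G.Adj (g • x) (g • y)) {z y z' : V}
    (h : y ∈ gorb Γ z) : gdg Γ G y z' = gdg Γ G z z' := by
  obtain ⟨g, rfl⟩ := (mem_gorb Γ).mp h
  symm
  refine card_bij (fun x _ => g • x) ?_ ?_ ?_
  · intro x hx
    rw [mem_filter] at hx ⊢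
    exact ⟨mem_univ _, hact g _ _ hx.2.1, (gorb_act Γ g).mpr hx.2.2⟩
  · intro x _ x' _ heq
    exact smul_left_cancel g heq
  · intro x hx
    rw [mem_filter] at hx
    refine ⟨g⁻¹ • x, ?_, smul_inv_smul _ _⟩
    rw [mem_filter]
    refine ⟨mem_univ _, ?_, (gorb_act Γ g⁻¹).mpr hx.2.2⟩
    have h1 := hact g⁻¹ _ _ hx.2.1
    rw [inv_smul_smul] at h1
    exact h1

theorem gdg_ncard (z z' : V) : gdg Γ G z z' =
    ({y : V | G.Adj z y ∧ ∃ g : Γ, g • z' = y} : Set V).ncard := by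
  unfold gdg
  rw [← Set.ncard_coe_finset]
  congr 1
  ext y
  rw [mem_coe, mem_filter, mem_gorb]
  exact ⟨fun h => h.2, fun h => ⟨mem_univ _, h⟩⟩

variable [Fintype Γ]

omit [Fintype V] in
theorem gwgt_pos (z : V) : 0 < gwgt Γ z := by
  refine card_pos.mpr ⟨1, ?_⟩
  rw [mem_filter]
  exact ⟨mem_univ _, one_smul _ _⟩

theorem gcnt_eq {z z' : V} (h : z' ∈ gorb Γ z) :
    (univ.filter (fun g : Γ => g • z = z')).card = gwgt Γ z' := by
  obtain ⟨b, hb⟩ := (mem_gorb Γ).mp h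
  refine card_nbij' (fun g => g * b⁻¹) (fun g => g * b) ?_ ?_ ?_ ?_
  · intro g hg
    rw [mem_coe, mem_filter] at hg ⊢
    refine ⟨mem_univ _, ?_⟩
    rw [mul_smul, ← hb, inv_smul_smul, hg.2, hb]
  · intro g hg
    rw [mem_coe, mem_filter] at hg ⊢
    refine ⟨mem_univ _, ?_⟩
    rw [mul_smul, hb, hg.2]
  · intro g _
    exact inv_mul_cancel_right g b
  · intro g _
    exact mul_inv_cancel_right g b

theorem gcnt_eq' {z z' : V} (h : z' ∈ gorb Γ z) :
    (univ.filter (fun g : Γ => g • z = z')).card = gwgt Γ z := by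
  obtain ⟨b, hb⟩ := (mem_gorb Γ).mp h
  refine card_nbij' (fun g => b⁻¹ * g) (fun g => b * g) ?_ ?_ ?_ ?_
  · intro g hg
    rw [mem_coe, mem_filter] at hg ⊢
    refine ⟨mem_univ _, ?_⟩
    rw [mul_smul, hg.2, ← hb, inv_smul_smul]
  · intro g hg
    rw [mem_coe, mem_filter] at hg ⊢
    refine ⟨mem_univ _, ?_⟩
    rw [mul_smul, hg.2, hb]
  · intro g _
    exact mul_inv_cancel_left b g
  · intro g _
    exact inv_mul_cancel_left b g

theorem gwgt_eq {z z' : V} (h : z' ∈ gorb Γ z) : gwgt Γ z' = gwgt Γ z := by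
  rw [← gcnt_eq Γ h, gcnt_eq' Γ h]

theorem gadj_cnt (z z' : V) :
    (univ.filter (fun g : Γ => G.Adj z (g • z'))).card = gdg Γ G z z' * gwgt Γ z' := by
  have h2 : (univ.filter (fun g : Γ => G.Adj z (g • z'))).card =
      ∑ y ∈ univ.filter (fun y => G.Adj z y ∧ y ∈ gorb Γ z'),
        ((univ.filter (fun g : Γ => G.Adj z (g • z'))).filter (fun g => g • z' = y)).card := by
    refine card_eq_sum_card_fiberwise ?_
    intro g hg
    rw [mem_coe, mem_filter] at hg ⊢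
    exact ⟨mem_univ _, hg.2, (mem_gorb Γ).mpr ⟨g, rfl⟩⟩
  rw [h2]
  have h3 : ∀ y ∈ univ.filter (fun y => G.Adj z y ∧ y ∈ gorb Γ z'),
      ((univ.filter (fun g : Γ => G.Adj z (g • z'))).filter (fun g => g • z' = y)).card =
        gwgt Γ z' := by
    intro y hy
    rw [mem_filter] at hy
    rw [← gcnt_eq' Γ hy.2.2]
    congr 1
    ext g
    simp only [mem_filter, mem_univ, true_and]
    constructor
    · exact fun h => h.2
    · intro h
      exact ⟨by rw [h]; exact hy.2.1, h⟩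
  rw [sum_congr rfl h3, sum_const, smul_eq_mul]
  rfl

theorem gdg_wgt (hact : ∀ (g : Γ) (x y : V), G.Adj x y → G.Adj (g • x) (g • y)) (z z' : V) :
    gdg Γ G z z' * gwgt Γ z' = gdg Γ G z' z * gwgt Γ z := by
  rw [← gadj_cnt, ← gadj_cnt]
  have h0 : ∀ (z z' : V) (g : Γ), G.Adj z (g • z') → G.Adj z' (g⁻¹ • z) := by
    intro z z' g h
    have h1 := hact g⁻¹ _ _ h
    rw [inv_smul_smul] at h1
    exact h1.symm
  refine card_nbij' (fun g => g⁻¹) (fun g => g⁻¹) ?_ ?_ ?_ ?_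
  · intro g hg
    rw [mem_coe, mem_filter] at hg ⊢
    exact ⟨mem_univ _, h0 _ _ _ hg.2⟩
  · intro g hg
    rw [mem_coe, mem_filter] at hg ⊢
    exact ⟨mem_univ _, h0 _ _ _ hg.2⟩
  · intro g _
    exact inv_inv g
  · intro g _
    exact inv_inv g

/-- comparison of two adjacent orbits inside of `A` -/
theorem gorbit_step (hG : G.Connected)
    (hact : ∀ (g : Γ) (x y : V), G.Adj x y → G.Adj (g • x) (g • y)) (F A : Finset V) (x : V)
    (hA : ∀ x ∈ A, ∀ y, G.Adj x y → y ∉ A → y ∈ F) {z z' : V} (hzz' : G.Adj z z') (ρ : ℕ) :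
    gwgt Γ z * (gorb Γ z ∩ (A ∩ ball G x ρ)).card ≤
      gwgt Γ z' * (gorb Γ z' ∩ (A ∩ ball G x (ρ + 1))).card +
        gwgt Γ z' * (F ∩ ball G x (ρ + 1)).card := by
  obtain ⟨T, hT⟩ : ∃ T, T = gorb Γ z ∩ (A ∩ ball G x ρ) := ⟨_, rfl⟩
  obtain ⟨T', hT'⟩ : ∃ T', T' = gorb Γ z' ∩ (A ∩ ball G x (ρ + 1)) := ⟨_, rfl⟩
  obtain ⟨E, hE⟩ : ∃ E, E = gorb Γ z' ∩ (F ∩ ball G x (ρ + 1)) := ⟨_, rfl⟩
  have hEF : E.card ≤ (F ∩ ball G x (ρ + 1)).card := by
    rw [hE]
    exact card_le_card inter_subset_right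
  rw [← hT, ← hT']
  have h1 : ∀ y ∈ T, gdg Γ G z z' ≤ ((T' ∪ E).filter (fun y' => G.Adj y y')).card := by
    intro y hy
    rw [hT, mem_inter, mem_inter, mem_ball] at hy
    rw [← gdg_act Γ hact hy.1]
    refine card_le_card ?_
    intro y' hy'
    rw [mem_filter] at hy'
    rw [mem_filter, mem_union, hT', hE, mem_inter, mem_inter, mem_inter, mem_inter, mem_ball]
    have h4 : G.dist y y' = 1 := SimpleGraph.dist_eq_one_iff_adj.mpr hy'.2.1
    have h5 := hG.dist_triangle (u := x) (v := y) (w := y')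
    refine ⟨?_, hy'.2.1⟩
    by_cases hyA : y' ∈ A
    · exact Or.inl ⟨hy'.2.2, hyA, by omega⟩
    · exact Or.inr ⟨hy'.2.2, hA y hy.2.1 y' hy'.2.1 hyA, by omega⟩
  have horb : ∀ y' ∈ T' ∪ E, y' ∈ gorb Γ z' := by
    intro y' hy'
    rcases mem_union.mp hy' with h | h
    · rw [hT', mem_inter] at h
      exact h.1
    · rw [hE, mem_inter] at h
      exact h.1
  have h2 : T.card * gdg Γ G z z' ≤ (T'.card + E.card) * gdg Γ G z' z := by
    calc T.card * gdg Γ G z z' = ∑ _y ∈ T, gdg Γ G z z' := by rw [sum_const, smul_eq_mul]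
      _ ≤ ∑ y ∈ T, ((T' ∪ E).filter (fun y' => G.Adj y y')).card := sum_le_sum h1
      _ = ∑ y' ∈ T' ∪ E, (T.filter (fun y => G.Adj y y')).card := by
          simp only [card_filter]
          exact sum_comm
      _ ≤ ∑ _y' ∈ T' ∪ E, gdg Γ G z' z := by
          refine sum_le_sum ?_
          intro y' hy'
          rw [← gdg_act Γ hact (horb y' hy')]
          refine card_le_card ?_
          intro y hy
          rw [mem_filter, hT, mem_inter] at hy
          rw [mem_filter]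
          exact ⟨mem_univ _, hy.2.symm, hy.1.1⟩
      _ = (T' ∪ E).card * gdg Γ G z' z := by rw [sum_const, smul_eq_mul]
      _ ≤ (T'.card + E.card) * gdg Γ G z' z := Nat.mul_le_mul_right _ (card_union_le _ _)
  have hdpos : 0 < gdg Γ G z z' := by
    refine card_pos.mpr ⟨z', ?_⟩
    rw [mem_filter]
    exact ⟨mem_univ _, hzz', gorb_self Γ z'⟩
  have h3 : gdg Γ G z z' * (gwgt Γ z * T.card) ≤
      gdg Γ G z z' * (gwgt Γ z' * (T'.card + E.card)) := by
    calc gdg Γ G z z' * (gwgt Γ z * T.card) = gwgt Γ z * (T.card * gdg Γ G z z') := by ring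
      _ ≤ gwgt Γ z * ((T'.card + E.card) * gdg Γ G z' z) := Nat.mul_le_mul_left _ h2
      _ = (T'.card + E.card) * (gdg Γ G z' z * gwgt Γ z) := by ring
      _ = (T'.card + E.card) * (gdg Γ G z z' * gwgt Γ z') := by rw [gdg_wgt Γ hact z z']
      _ = gdg Γ G z z' * (gwgt Γ z' * (T'.card + E.card)) := by ring
  have h4 := Nat.le_of_mul_le_mul_left h3 hdpos
  rw [mul_add] at h4
  exact h4.trans (Nat.add_le_add_left (Nat.mul_le_mul_left _ hEF) _)

theorem gorbit_chain (hG : G.Connected)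
    (hact : ∀ (g : Γ) (x y : V), G.Adj x y → G.Adj (g • x) (g • y)) (F A : Finset V) (x : V)
    (hA : ∀ x ∈ A, ∀ y, G.Adj x y → y ∉ A → y ∈ F) {h : ℕ} (hh : ∀ z : V, gwgt Γ z ≤ h)
    {z u : V} (p : G.Walk z u) :
    ∀ ρ, gwgt Γ z * (gorb Γ z ∩ (A ∩ ball G x ρ)).card ≤
      gwgt Γ u * (gorb Γ u ∩ (A ∩ ball G x (ρ + p.length))).card +
        h * (p.length * (F ∩ ball G x (ρ + p.length)).card) := by
  induction p with
  | nil =>
    intro ρ
    simp
  | @cons z z' u hzz' p ih =>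
    intro ρ
    have h1 := gorbit_step Γ hG hact F A x hA hzz' ρ
    have h2 := ih (ρ + 1)
    rw [SimpleGraph.Walk.length_cons]
    have h3 : ρ + 1 + p.length = ρ + (p.length + 1) := by omega
    rw [h3] at h2
    have h4 : gwgt Γ z' * (F ∩ ball G x (ρ + 1)).card ≤
        h * (F ∩ ball G x (ρ + (p.length + 1))).card :=
      Nat.mul_le_mul (hh z') (card_le_card (inter_subset_inter_left (ball_mono G x (by omega))))
    have h5 : h * ((p.length + 1) * (F ∩ ball G x (ρ + (p.length + 1))).card) =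
        h * (p.length * (F ∩ ball G x (ρ + (p.length + 1))).card) +
          h * (F ∩ ball G x (ρ + (p.length + 1))).card := by ring
    omega

omit [Fintype Γ] in
/-- every vertex is near to every orbit -/
theorem greach_orbit (hG : G.Connected)
    (hact : ∀ (g : Γ) (x y : V), G.Adj x y → G.Adj (g • x) (g • y)) {q : ℕ} (R : Fin q → V)
    (hR : ∀ x, ∃ i, ∃ g : Γ, g • (R i) = x) (o z : V) :
    ∃ u ∈ gorb Γ o, ∃ p : G.Walk z u, p.length + 1 ≤ q := by
  obtain ⟨u, hu, hmin⟩ := exists_min_image (gorb Γ o) (fun u => G.dist z u) ⟨o, gorb_self Γ o⟩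
  obtain ⟨p, hp⟩ := hG.exists_walk_length_eq_dist z u
  refine ⟨u, hu, p, ?_⟩
  by_contra hlt
  push Not at hlt
  choose f hf using fun x => hR x
  obtain ⟨i, j, hij, heq⟩ := Fintype.exists_ne_map_eq_of_card_lt
    (fun i : Fin (p.length + 1) => f (p.getVert i)) (by
      rw [Fintype.card_fin, Fintype.card_fin]
      exact hlt)
  have key : ∀ i j : ℕ, i < j → j ≤ p.length → f (p.getVert i) = f (p.getVert j) → False := by
    intro i j hij hj heq
    obtain ⟨φ, hφ⟩ := hf (p.getVert i)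
    obtain ⟨ψ, hψ⟩ := hf (p.getVert j)
    rw [← heq] at hψ
    obtain ⟨χ, hχ⟩ : ∃ χ : Γ, χ • (p.getVert j) = p.getVert i := by
      refine ⟨φ * ψ⁻¹, ?_⟩
      rw [mul_smul, ← hψ, inv_smul_smul, hφ]
    have h2 : G.dist (p.getVert i) (χ • u) = G.dist (p.getVert j) u := by
      rw [← hχ, gdist Γ hG hact]
    have h3 : G.dist (p.getVert j) u ≤ p.length - j := by
      have h := SimpleGraph.dist_le (p.drop j)
      rw [SimpleGraph.Walk.drop_length] at h
      exact h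
    have h4 : G.dist z (p.getVert i) ≤ i := by
      have h := SimpleGraph.dist_le (p.take i)
      rw [SimpleGraph.Walk.take_length] at h
      omega
    have h5 := hmin (χ • u) ((gorb_act Γ χ).mpr hu)
    have h6 := hG.dist_triangle (u := z) (v := p.getVert i) (w := χ • u)
    omega
  rcases Nat.lt_or_gt_of_ne (fun h => hij (Fin.ext h)) with h | h
  · exact key i j h (by omega) heq
  · exact key j i h (by omega) heq.symm

theorem gmhomog (hG : G.Connected)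
    (hact : ∀ (g : Γ) (x y : V), G.Adj x y → G.Adj (g • x) (g • y)) (o : V)
    (hmax : ∀ z : V, gwgt Γ z ≤ gwgt Γ o) :
    MHomog G o (fun (g : Γ) (x : V) => g • x) (gorb Γ o) (gwgt Γ) (gwgt Γ o) := by
  refine ⟨hG, ?_, ?_, ?_, gorb_self Γ o, ?_, ?_, ?_, hmax, ?_, gwgt_pos Γ o, ?_⟩
  · intro g x y h
    exact hact g x y h
  · intro g x y h
    exact smul_left_cancel g h
  · intro g x y
    exact gdist Γ hG hact g x y
  · intro g x
    exact gorb_act Γ g
  · intro z z'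
    by_cases hz : z' ∈ gorb Γ z
    · exact (gcnt_eq Γ hz).le
    · have h1 : (univ.filter (fun g : Γ => g • z = z')) = ∅ := by
        rw [filter_eq_empty_iff]
        intro g _ h2
        exact hz ((mem_gorb Γ).mpr ⟨g, h2⟩)
      rw [h1, card_empty]
      exact Nat.zero_le _
  · intro z hz
    exact gcnt_eq' Γ hz
  · intro z hz
    exact gwgt_eq Γ hz
  · intro x hx r
    obtain ⟨a, ha⟩ := (mem_gorb Γ).mp hx
    symm
    refine card_bij (fun y _ => a • y) ?_ ?_ ?_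
    · intro y hy
      rw [mem_inter, mem_ball] at hy ⊢
      rw [← ha, gdist Γ hG hact]
      exact ⟨(gorb_act Γ a).mpr hy.1, hy.2⟩
    · intro y _ y' _ heq
      exact smul_left_cancel a heq
    · intro y hy
      refine ⟨a⁻¹ • y, ?_, smul_inv_smul _ _⟩
      rw [mem_inter, mem_ball] at hy ⊢
      refine ⟨(gorb_act Γ a⁻¹).mpr hy.1, ?_⟩
      rw [← gdist Γ hG hact a, ha, smul_inv_smul]
      exact hy.2

theorem gcompare (hG : G.Connected)
    (hact : ∀ (g : Γ) (x y : V), G.Adj x y → G.Adj (g • x) (g • y)) (F A : Finset V) (x : V)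
    (hA : ∀ x ∈ A, ∀ y, G.Adj x y → y ∉ A → y ∈ F) {q : ℕ} (R : Fin q → V)
    (hR : ∀ x, ∃ i, ∃ g : Γ, g • (R i) = x) (o : V) (hmax : ∀ z : V, gwgt Γ z ≤ gwgt Γ o) (ρ : ℕ) :
    ∑ y ∈ A ∩ ball G x ρ, gwgt Γ y ≤
      q * (gwgt Γ o * (gorb Γ o ∩ (A ∩ ball G x (ρ + (q - 1)))).card +
        gwgt Γ o * ((q - 1) * (F ∩ ball G x (ρ + (q - 1))).card)) := by
  obtain ⟨X, hX⟩ : ∃ X, X = A ∩ ball G x ρ := ⟨_, rfl⟩
  have h1 : ∀ i : Fin q, ∑ y ∈ X, (if y ∈ gorb Γ (R i) then gwgt Γ y else 0) ≤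
      gwgt Γ o * (gorb Γ o ∩ (A ∩ ball G x (ρ + (q - 1)))).card +
        gwgt Γ o * ((q - 1) * (F ∩ ball G x (ρ + (q - 1))).card) := by
    intro i
    obtain ⟨u, hu, p, hp⟩ := greach_orbit Γ hG hact R hR o (R i)
    have h2 : ∑ y ∈ X, (if y ∈ gorb Γ (R i) then gwgt Γ y else 0) =
        gwgt Γ (R i) * (gorb Γ (R i) ∩ X).card := by
      rw [← sum_filter, inter_comm, ← filter_mem_eq_inter]
      rw [sum_congr rfl (g := fun _ => gwgt Γ (R i)) (fun y hy => gwgt_eq Γ (mem_filter.mp hy).2)]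
      rw [sum_const, smul_eq_mul, mul_comm]
    rw [h2, hX]
    refine (gorbit_chain Γ hG hact F A x hA hmax p ρ).trans ?_
    rw [gwgt_eq Γ hu, gorb_eq Γ hu]
    refine Nat.add_le_add (Nat.mul_le_mul_left _ (card_le_card ?_))
      (Nat.mul_le_mul_left _ (Nat.mul_le_mul (by omega) (card_le_card ?_)))
    · exact inter_subset_inter_left (inter_subset_inter_left (ball_mono G x (by omega)))
    · exact inter_subset_inter_left (ball_mono G x (by omega))
  calc ∑ y ∈ A ∩ ball G x ρ, gwgt Γ y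
      ≤ ∑ y ∈ X, ∑ i : Fin q, (if y ∈ gorb Γ (R i) then gwgt Γ y else 0) := by
        rw [← hX]
        refine sum_le_sum fun y _ => ?_
        obtain ⟨i, g, hg⟩ := hR y
        have h2 : (if y ∈ gorb Γ (R i) then gwgt Γ y else 0) = gwgt Γ y :=
          if_pos ((mem_gorb Γ).mpr ⟨g, hg⟩)
        refine (le_of_eq h2.symm).trans ?_
        exact single_le_sum (f := fun i : Fin q => if y ∈ gorb Γ (R i) then gwgt Γ y else 0)
          (fun _ _ => Nat.zero_le _) (mem_univ i)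
    _ = ∑ i : Fin q, ∑ y ∈ X, (if y ∈ gorb Γ (R i) then gwgt Γ y else 0) := sum_comm
    _ ≤ ∑ _i : Fin q,
          (gwgt Γ o * (gorb Γ o ∩ (A ∩ ball G x (ρ + (q - 1)))).card +
            gwgt Γ o * ((q - 1) * (F ∩ ball G x (ρ + (q - 1))).card)) :=
        sum_le_sum fun i _ => h1 i
    _ = _ := by
        rw [sum_const, smul_eq_mul, card_univ, Fintype.card_fin]

/-- the total weight of the neighbours -/
noncomputable def gsum (G : SimpleGraph V) (z : V) : ℕ :=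
  ∑ y ∈ univ.filter (fun y => G.Adj z y), gwgt Γ y

theorem gsum_act (hact : ∀ (g : Γ) (x y : V), G.Adj x y → G.Adj (g • x) (g • y)) {z y : V}
    (h : y ∈ gorb Γ z) : gsum Γ G y = gsum Γ G z := by
  obtain ⟨g, rfl⟩ := (mem_gorb Γ).mp h
  symm
  refine sum_nbij' (fun x => g • x) (fun x => g⁻¹ • x) ?_ ?_ ?_ ?_ ?_
  · intro x hx
    rw [mem_filter] at hx ⊢
    exact ⟨mem_univ _, hact g _ _ hx.2⟩
  · intro x hx
    rw [mem_filter] at hx ⊢
    refine ⟨mem_univ _, ?_⟩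
    have h1 := hact g⁻¹ _ _ hx.2
    rw [inv_smul_smul] at h1
    exact h1
  · intro x _
    exact inv_smul_smul g x
  · intro x _
    exact smul_inv_smul g x
  · intro x _
    exact (gwgt_eq Γ ((mem_gorb Γ).mpr ⟨g, rfl⟩)).symm

theorem gsum_eq (z : V) : gsum Γ G z = Nat.card {p : V × Γ // G.Adj z p.1 ∧ p.2 • p.1 = p.1} := by
  rw [Nat.card_eq_fintype_card, Fintype.card_subtype]
  rw [card_eq_sum_card_fiberwise (f := Prod.fst) (t := univ.filter (fun y => G.Adj z y))]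
  · unfold gsum gwgt
    refine sum_congr rfl fun y hy => ?_
    rw [mem_filter] at hy
    refine card_nbij' (fun g => (y, g)) (fun p => p.2) ?_ ?_ ?_ ?_
    · intro g hg
      rw [mem_coe, mem_filter] at hg
      rw [mem_coe, mem_filter, mem_filter]
      exact ⟨⟨mem_univ _, hy.2, hg.2⟩, rfl⟩
    · rintro ⟨y', g⟩ hp
      rw [mem_coe, mem_filter, mem_filter] at hp
      obtain ⟨⟨_, _, h2⟩, h3⟩ := hp
      simp only at h2 h3
      rw [mem_coe, mem_filter]
      refine ⟨mem_univ _, ?_⟩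
      rw [← h3]
      exact h2
    · intro g _
      rfl
    · rintro ⟨y', g⟩ hp
      rw [mem_coe, mem_filter, mem_filter] at hp
      have h3 := hp.2
      simp only at h3
      rw [h3]
  · intro p hp
    rw [mem_coe, mem_filter] at hp ⊢
    exact ⟨mem_univ _, hp.2.1⟩

omit [Fintype V] in
theorem gwgt_eq_card (z : V) : gwgt Γ z = Nat.card {g : Γ // g • z = z} := by
  rw [Nat.card_eq_fintype_card, Fintype.card_subtype]
  rfl

omit [Fintype Γ] in
/-- steps that cannot be blocked by a sparse set -/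
theorem gwalk_in (hG : G.Connected)
    (hact : ∀ (g : Γ) (x y : V), G.Adj x y → G.Adj (g • x) (g • y)) (F A : Finset V) (k : ℕ)
    (hA : ∀ x ∈ A, ∀ y, G.Adj x y → y ∉ A → y ∈ F)
    (hF : ∀ x ρ, 1 ≤ ρ → (F ∩ ball G x ρ).card ≤ 2 * ρ + k) (z : ℕ → V) (m : ℕ)
    (hz : ∀ i < m, k + 3 ≤ gdg Γ G (z i) (z (i + 1))) (hx : z 0 ∈ A) :
    ∀ i ≤ m, ∃ y ∈ A, y ∈ gorb Γ (z i) ∧ G.dist (z 0) y ≤ i := by
  intro i
  induction i with
  | zero =>
    intro _
    exact ⟨z 0, hx, gorb_self Γ _, by simp⟩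
  | succ i ih =>
    intro hi
    obtain ⟨y, hyA, hyz, hyd⟩ := ih (by omega)
    have h1 : ∃ y1, G.Adj y y1 ∧ y1 ∈ gorb Γ (z (i + 1)) ∧ y1 ∉ F := by
      by_contra hno
      push Not at hno
      have h2 : gdg Γ G y (z (i + 1)) = gdg Γ G (z i) (z (i + 1)) := gdg_act Γ hact hyz
      have h3 : univ.filter (fun y' => G.Adj y y' ∧ y' ∈ gorb Γ (z (i + 1))) ⊆
          F ∩ ball G y 1 := by
        intro y' hy'
        rw [mem_filter] at hy'
        rw [mem_inter, mem_ball]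
        exact ⟨hno y' hy'.2.1 hy'.2.2, by rw [SimpleGraph.dist_eq_one_iff_adj.mpr hy'.2.1]⟩
      have h4 := card_le_card h3
      have h5 := hF y 1 (le_refl _)
      have h6 : (univ.filter (fun y' => G.Adj y y' ∧ y' ∈ gorb Γ (z (i + 1)))).card =
        gdg Γ G y (z (i + 1)) := rfl
      have h7 := hz i (by omega)
      omega
    obtain ⟨y1, hyy1, hy1z, hy1F⟩ := h1
    have hy1A : y1 ∈ A := by
      by_contra hn
      exact hy1F (hA y hyA y1 hyy1 hn)
    refine ⟨y1, hy1A, hy1z, ?_⟩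
    have h5 := hG.dist_triangle (u := z 0) (v := y) (w := y1)
    rw [SimpleGraph.dist_eq_one_iff_adj.mpr hyy1] at h5
    omega

/-- the weight of `A` near to a vertex of `A` -/
theorem gbase0 (hG : G.Connected)
    (hact : ∀ (g : Γ) (x y : V), G.Adj x y → G.Adj (g • x) (g • y)) (F A : Finset V) (k : ℕ)
    (hA : ∀ x ∈ A, ∀ y, G.Adj x y → y ∉ A → y ∈ F)
    (hF : ∀ x ρ, 1 ≤ ρ → (F ∩ ball G x ρ).card ≤ 2 * ρ + k) (z : ℕ → V) (m q D h : ℕ)
    (hm : m ≤ q) (hh : ∀ z : V, gwgt Γ z ≤ h)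
    (hz : ∀ i < m, k + 3 ≤ gdg Γ G (z i) (z (i + 1))) (hrich : D * h ≤ gsum Γ G (z m))
    (hx : z 0 ∈ A) :
    ∃ y, h * D ≤ ∑ y ∈ A ∩ ball G (z 0) (q + 1), gwgt Γ y + h * (F ∩ ball G y 1).card := by
  obtain ⟨y, hyA, hyz, hyd⟩ := gwalk_in Γ hG hact F A k hA hF z m hz hx m (le_refl _)
  refine ⟨y, ?_⟩
  have h1 : gsum Γ G y = gsum Γ G (z m) := gsum_act Γ hact hyz
  have h2 : univ.filter (fun y' => G.Adj y y') ⊆
      (A ∩ ball G (z 0) (q + 1)) ∪ (F ∩ ball G y 1) := by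
    intro y' hy'
    rw [mem_filter] at hy'
    rw [mem_union, mem_inter, mem_inter, mem_ball, mem_ball]
    have h3 : G.dist y y' = 1 := SimpleGraph.dist_eq_one_iff_adj.mpr hy'.2
    by_cases hy'A : y' ∈ A
    · left
      have h4 := hG.dist_triangle (u := z 0) (v := y) (w := y')
      exact ⟨hy'A, by omega⟩
    · exact Or.inr ⟨hA y hyA y' hy'.2 hy'A, by omega⟩
  have h3 : gsum Γ G y ≤ ∑ y ∈ A ∩ ball G (z 0) (q + 1), gwgt Γ y +
      ∑ y ∈ F ∩ ball G y 1, gwgt Γ y := by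
    have h4 : gsum Γ G y ≤ ∑ y ∈ (A ∩ ball G (z 0) (q + 1)) ∪ (F ∩ ball G y 1), gwgt Γ y :=
      sum_le_sum_of_subset h2
    have h5 := sum_union_inter (s₁ := A ∩ ball G (z 0) (q + 1)) (s₂ := F ∩ ball G y 1)
      (f := fun y => gwgt Γ y)
    omega
  have h4 : ∑ y ∈ F ∩ ball G y 1, gwgt Γ y ≤ h * (F ∩ ball G y 1).card := by
    calc ∑ y ∈ F ∩ ball G y 1, gwgt Γ y ≤ ∑ _y ∈ F ∩ ball G y 1, h :=
          sum_le_sum fun y _ => hh y
      _ = h * (F ∩ ball G y 1).card := by rw [sum_const, smul_eq_mul, mul_comm]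
  have h5 : h * D = D * h := mul_comm _ _
  omega

theorem gbase (hG : G.Connected)
    (hact : ∀ (g : Γ) (x y : V), G.Adj x y → G.Adj (g • x) (g • y)) (F A : Finset V) (k : ℕ)
    (hA : ∀ x ∈ A, ∀ y, G.Adj x y → y ∉ A → y ∈ F)
    (hF : ∀ x ρ, 1 ≤ ρ → (F ∩ ball G x ρ).card ≤ 2 * ρ + k) (z : ℕ → V) (m q D h : ℕ)
    (hm : m ≤ q) (hh : ∀ z : V, gwgt Γ z ≤ h)
    (hz : ∀ i < m, k + 3 ≤ gdg Γ G (z i) (z (i + 1))) (hrich : D * h ≤ gsum Γ G (z m))
    (hx : z 0 ∈ A) :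
    h * D ≤ ∑ y ∈ A ∩ ball G (z 0) (q + 1), gwgt Γ y + h * (2 + k) := by
  obtain ⟨y, hy⟩ := gbase0 Γ hG hact F A k hA hF z m q D h hm hh hz hrich hx
  exact hy.trans (Nat.add_le_add_left (Nat.mul_le_mul_left _ (hF y 1 (le_refl _))) _)

end Pool.Agent.VG86
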